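import Pool.Agent.H953R3.JT.Near

set_option autoImplicit false

/-! The extreme terms of the Jones polynomial of a twisted plane graph, if the extremal bridgeless
subgraphs are unique. -/

namespace Pool.Agent.H953R3.JT

open Finset LaurentPolynomial Pool.Agent.H891R2.Jones Pool.Agent.H891R2.MT
open Pool.Agent.H891R2.MT.T4b (SIn term SIn_term)

variable {k : ℕ}

/-- the coefficient at `m` is `c`, and all coefficients above `m` vanish -/
def Top (f : ℤ[T;T⁻¹]) (m c : ℤ) : Prop := f.coeff m = c ∧ ∀ j, m < j → f.coeff j = 0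

theorem Top.unique {f : ℤ[T;T⁻¹]} {m m' c c' : ℤ} (h : Top f m c) (h' : Top f m' c') (hc : c ≠ 0)
    (hc' : c' ≠ 0) : m = m' ∧ c = c' := by
  have h1 : m = m' := by
    rcases lt_trichotomy m m' with hlt | heq | hgt
    · have := h.2 m' hlt
      rw [h'.1] at this
      exact absurd this hc'
    · exact heq
    · have := h'.2 m hgt
      rw [h.1] at this
      exact absurd this hc
  subst h1
  exact ⟨rfl, h.1.symm.trans h'.1⟩

theorem Top.mul {f g : ℤ[T;T⁻¹]} {m m' c c' : ℤ} (h : Top f m c) (h' : Top g m' c') :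
    Top (f * g) (m + m') (c * c') := by
  classical
  have hf : ∀ j, f.coeff j ≠ 0 → j ≤ m := fun j hj => by
    by_contra hcon
    exact hj (h.2 j (not_le.1 hcon))
  have hg : ∀ j, g.coeff j ≠ 0 → j ≤ m' := fun j hj => by
    by_contra hcon
    exact hj (h'.2 j (not_le.1 hcon))
  constructor
  · have hu : UniqueAdd f.coeff.support g.coeff.support m m' := by
      intro a b ha hb hab
      have h1 := hf a (Finsupp.mem_support_iff.mp ha)
      have h2 := hg b (Finsupp.mem_support_iff.mp hb)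
      constructor <;> omega
    rw [AddMonoidAlgebra.coeff_mul_add_of_uniqueAdd hu, h.1, h'.1]
  · intro j hj
    by_contra hne
    have h1 : j ∈ (f * g).coeff.support := Finsupp.mem_support_iff.mpr hne
    have h2 := AddMonoidAlgebra.support_coeff_mul_subset f g h1
    rw [Finset.mem_add] at h2
    obtain ⟨a, ha, b, hb, rfl⟩ := h2
    have h1 := hf a (Finsupp.mem_support_iff.mp ha)
    have h2 := hg b (Finsupp.mem_support_iff.mp hb)
    omega

theorem Top.T (m : ℤ) : Top (LaurentPolynomial.T m) m 1 := by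
  constructor
  · rw [T_apply]; simp
  · intro j hj
    rw [T_apply, if_neg (by omega)]

theorem Top.one : Top 1 0 1 := by
  have := Top.T 0
  rwa [T_zero] at this

theorem Top.neg {f : ℤ[T;T⁻¹]} {m c : ℤ} (h : Top f m c) : Top (-f) m (-c) := by
  constructor
  · rw [AddMonoidAlgebra.coeff_neg, Finsupp.neg_apply, h.1]
  · intro j hj
    rw [AddMonoidAlgebra.coeff_neg, Finsupp.neg_apply, h.2 j hj, neg_zero]

theorem Top.add {f g : ℤ[T;T⁻¹]} {m c : ℤ} (h : Top f m c) (hg : ∀ j, m ≤ j → g.coeff j = 0) :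
    Top (f + g) m c := by
  constructor
  · rw [AddMonoidAlgebra.coeff_add, Finsupp.add_apply, h.1, hg m le_rfl, add_zero]
  · intro j hj
    rw [AddMonoidAlgebra.coeff_add, Finsupp.add_apply, h.2 j hj, hg j hj.le, add_zero]

theorem Top.pow {f : ℤ[T;T⁻¹]} {m c : ℤ} (h : Top f m c) (n : ℕ) : Top (f ^ n) (n * m) (c ^ n) := by
  induction n with
  | zero => simpa using Top.one
  | succ n ih =>
    rw [pow_succ, pow_succ]
    have := ih.mul h
    have e : (((n + 1 : ℕ) : ℤ) * m) = n * m + m := by push_cast; ring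
    rw [e]
    exact this

theorem Top.delta : Top (-LaurentPolynomial.T 2 - LaurentPolynomial.T (-2)) 2 (-1) := by
  rw [sub_eq_add_neg]
  refine (Top.T 2).neg.add ?_
  intro j hj
  rw [AddMonoidAlgebra.coeff_neg, Finsupp.neg_apply, T_apply, if_neg (by omega), neg_zero]

theorem Top.Q : Top ((-LaurentPolynomial.T 2 - LaurentPolynomial.T (-2)) ^ 2) 4 1 := by
  have := Top.delta.pow 2
  norm_num at this
  exact this

theorem Top.sgn (a : ℕ) : Top ((-1 : ℤ[T;T⁻¹]) ^ a) 0 ((-1) ^ a) := by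
  have := (Top.one.neg).pow a
  simpa using this

theorem coeff_smul' (c : ℤ) (f : ℤ[T;T⁻¹]) (j : ℤ) : (c • f).coeff j = c * f.coeff j := by
  rw [AddMonoidAlgebra.coeff_smul, Finsupp.smul_apply, smul_eq_mul]

theorem Top.aeval (p : Polynomial ℤ) (hp : p.Monic) :
    Top (Polynomial.aeval ((-LaurentPolynomial.T 2 - LaurentPolynomial.T (-2)) ^ 2 : ℤ[T;T⁻¹]) p)
      (4 * p.natDegree) 1 := by
  rw [Polynomial.aeval_eq_sum_range, Finset.sum_range_succ, hp.coeff_natDegree, one_smul, add_comm]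
  have h1 := Top.Q.pow p.natDegree
  rw [one_pow, mul_comm] at h1
  refine h1.add ?_
  intro j hj
  rw [AddMonoidAlgebra.coeff_sum, Finsupp.finsetSum_apply]
  refine Finset.sum_eq_zero fun i hi => ?_
  rw [Finset.mem_range] at hi
  rw [coeff_smul', (Top.Q.pow i).2 j (by
    have : (i : ℤ) < p.natDegree := by exact_mod_cast hi
    linarith), mul_zero]

/-- every nonzero Laurent polynomial has a top term -/
theorem exists_top {f : ℤ[T;T⁻¹]} (h : f ≠ 0) : ∃ m, f.coeff m ≠ 0 ∧ Top f m (f.coeff m) := by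
  classical
  have hne : f.coeff.support.Nonempty := by
    rw [Finset.nonempty_iff_ne_empty]
    intro he
    apply h
    apply LaurentPolynomial.ext
    intro j
    have : j ∉ f.coeff.support := by rw [he]; simp
    rw [Finsupp.notMem_support_iff] at this
    rw [this]
    rfl
  obtain ⟨m, hm, hmax⟩ := f.coeff.support.exists_max_image id hne
  refine ⟨m, Finsupp.mem_support_iff.1 hm, rfl, ?_⟩
  intro j hj
  by_contra hne
  have := hmax j (Finsupp.mem_support_iff.2 hne)
  simp only [id] at this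
  omega

/-- cancellation of a factor with a known top term -/
theorem Top.cancel {f g : ℤ[T;T⁻¹]} {a b c e : ℤ} (h : Top (g * f) a c) (hg : Top g b e)
    (hc : c ≠ 0) (he : e * e = 1) : Top f (a - b) (e * c) := by
  have hf : f ≠ 0 := by
    rintro rfl
    rw [mul_zero] at h
    exact hc h.1.symm
  obtain ⟨q, hq, hq2⟩ := exists_top hf
  have he0 : e ≠ 0 := by rintro rfl; norm_num at he
  obtain ⟨h1, h2⟩ := (hg.mul hq2).unique h (mul_ne_zero he0 hq) hc
  have e1 : a - b = q := by omega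
  have e2 : e * c = f.coeff q := by rw [← h2, ← mul_assoc, he, one_mul]
  rw [e1, e2]
  exact hq2

/-- the function to be maximised: `n(S) + |S| + c(S)` -/
noncomputable def dd (Γ : Ribbon k) (S : Finset (Fin k)) : ℤ := S.card + Γ.comps S

theorem mem_Fam (Γ : Ribbon k) (S : Finset (Fin k)) : S ∈ Fam Γ ↔ Γ.Bridgeless S := by
  unfold Fam
  rw [Finset.mem_filter]
  simp only [Finset.mem_univ, true_and]
  exact ⟨cpoly_ne_zero_iff Γ S, fun h => (cpoly_monic Γ S h).1.ne_zero⟩

theorem top_term (Γ : Ribbon k) (n : Fin k → ℤ) (S : Finset (Fin k)) (hS : Γ.Bridgeless S) :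
    Top (term Γ.cpoly n S) (4 * (nS n S + dd Γ S)) ((-1) ^ (nS n S).natAbs) := by
  obtain ⟨h1, h2⟩ := cpoly_monic Γ S hS
  unfold term
  have h3 := ((Top.sgn (nS n S).natAbs).mul (Top.T (4 * nS n S))).mul (Top.aeval _ h1)
  rw [h2, mul_one, mul_one] at h3
  have e : 0 + 4 * nS n S + 4 * ((S.card + Γ.comps S : ℕ) : ℤ) = 4 * (nS n S + dd Γ S) := by
    unfold dd
    push_cast
    ring
  rw [e] at h3
  exact h3

theorem top_sum (Γ : Ribbon k) (n : Fin k → ℤ) (P : Finset (Fin k)) (hP : Γ.Bridgeless P)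
    (hmax : ∀ S, Γ.Bridgeless S → S ≠ P → nS n S + dd Γ S < nS n P + dd Γ P) :
    Top (∑ S, term Γ.cpoly n S) (4 * (nS n P + dd Γ P)) ((-1) ^ (nS n P).natAbs) := by
  classical
  rw [← Finset.add_sum_erase _ _ (Finset.mem_univ P)]
  refine (top_term Γ n P hP).add ?_
  intro j hj
  rw [AddMonoidAlgebra.coeff_sum, Finsupp.finsetSum_apply]
  refine Finset.sum_eq_zero fun S hS => ?_
  have hSP := (Finset.mem_erase.1 hS).1
  by_cases hb : Γ.Bridgeless S
  · exact (top_term Γ n S hb).2 j (by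
      have := hmax S hb hSP
      linarith)
  · have h0 : Γ.cpoly S = 0 := by
      by_contra h
      exact hb (cpoly_ne_zero_iff Γ S h)
    unfold term
    rw [h0, map_zero, mul_zero]
    rfl

theorem neg_one_pow_sq (a : ℕ) : ((-1 : ℤ) ^ a) * (-1) ^ a = 1 := by
  rw [← mul_pow]; norm_num

theorem abs_neg_one_pow' (a b : ℕ) : |(-1 : ℤ) ^ a * (-1) ^ b| = 1 := by
  rw [abs_mul, abs_pow, abs_pow]; simp

/-- the top term of the bracket -/
theorem top_bracket (Γ : Ribbon k) (n : Fin k → ℤ) (u : ℕ) (q : ℤ) (m : ℕ) (B : ℤ[T;T⁻¹])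
    (hid : ∑ S : Finset (Fin k), term Γ.cpoly n S =
      ((-1) ^ u * T q) * (-T 2 - T (-2)) ^ m * B)
    (P : Finset (Fin k)) (hP : Γ.Bridgeless P)
    (hmax : ∀ S, Γ.Bridgeless S → S ≠ P → nS n S + dd Γ S < nS n P + dd Γ P) :
    ∃ c : ℤ, |c| = 1 ∧ Top B (4 * (nS n P + dd Γ P) - (q + 2 * m)) c := by
  have h1 := top_sum Γ n P hP hmax
  rw [hid] at h1
  have h2 := ((Top.sgn u).mul (Top.T q)).mul (Top.delta.pow m)
  have h3 : Top (((-1) ^ u * T q) * (-T 2 - T (-2)) ^ m : ℤ[T;T⁻¹]) (q + 2 * m) 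
      ((-1) ^ u * (-1) ^ m) := by
    have e : (0 + q + (m : ℤ) * 2) = q + 2 * m := by ring
    rw [e, mul_one] at h2
    exact h2
  have h4 := h1.cancel h3 (pow_ne_zero _ (by norm_num)) (by
    have a1 := neg_one_pow_sq u
    have a2 := neg_one_pow_sq m
    calc (-1 : ℤ) ^ u * (-1) ^ m * ((-1) ^ u * (-1) ^ m) = 
        ((-1 : ℤ) ^ u * (-1) ^ u) * ((-1) ^ m * (-1) ^ m) := by ring
      _ = 1 := by rw [a1, a2, one_mul])
  refine ⟨_, ?_, h4⟩
  rw [abs_mul, abs_neg_one_pow', one_mul, abs_pow]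
  simp

theorem nS_neg (n : Fin k → ℤ) (S : Finset (Fin k)) : nS (fun e => -n e) S = -nS n S := by
  unfold nS
  rw [Finset.sum_neg_distrib]

theorem invert_sum (Γ : Ribbon k) (n : Fin k → ℤ) :
    LaurentPolynomial.invert (∑ S : Finset (Fin k), term Γ.cpoly n S) =
      ∑ S : Finset (Fin k), term Γ.cpoly (fun e => -n e) S := by
  have hQi : LaurentPolynomial.invert ((-T 2 - T (-2)) ^ 2 : ℤ[T;T⁻¹]) = (-T 2 - T (-2)) ^ 2 := by
    simp only [map_pow, map_sub, map_neg, LaurentPolynomial.invert_T, neg_neg]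
    ring
  rw [map_sum]
  refine Finset.sum_congr rfl fun S _ => ?_
  unfold term
  rw [map_mul, map_mul, map_pow, map_neg, map_one, LaurentPolynomial.invert_T, nS_neg, 
    Int.natAbs_neg]
  have h1 : LaurentPolynomial.invert (Polynomial.aeval ((-T 2 - T (-2)) ^ 2 : ℤ[T;T⁻¹]) (Γ.cpoly S)) =
      Polynomial.aeval (LaurentPolynomial.invert ((-T 2 - T (-2)) ^ 2 : ℤ[T;T⁻¹])) (Γ.cpoly S) := by
    rw [← AlgEquiv.coe_toAlgHom, ← Polynomial.aeval_algHom_apply]
  rw [h1, hQi]
  congr 2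
  ring_nf

/-- the extreme terms of the bracket, if the extremal subgraphs are unique -/
theorem bracket_ext (Γ : Ribbon k) (hΓ : Γ.Planar) (hk : 0 < k) (n : Fin k → ℤ)
    (P P' : Finset (Fin k)) (hP : Γ.Bridgeless P) (hP' : Γ.Bridgeless P')
    (hmax : ∀ S, Γ.Bridgeless S → S ≠ P → nS n S + dd Γ S < nS n P + dd Γ P)
    (hmax' : ∀ S, Γ.Bridgeless S → S ≠ P' → -nS n S + dd Γ S < -nS n P' + dd Γ P') :
    ∃ lo hi : ℤ, hi - lo = 4 * ((nS n P + dd Γ P) + (-nS n P' + dd Γ P') - (1 + Γ.verts + k)) ∧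
      SIn (Γ.link n).std.bracket lo hi ∧ |(Γ.link n).std.bracket.coeff lo| = 1 ∧
      |(Γ.link n).std.bracket.coeff hi| = 1 := by
  have hid := identity Γ hΓ hk n
  have hid1 : ∑ S : Finset (Fin k), term Γ.cpoly n S =
      ((-1) ^ (nS n univ).natAbs * T (3 * nS n univ)) * (-T 2 - T (-2)) ^ (1 + (Γ.verts + k)) * 
        (Γ.link n).std.bracket := hid
  obtain ⟨c, hc, h1⟩ := top_bracket Γ n _ _ _ _ hid1 P hP hmax
  have hid2 := congrArg LaurentPolynomial.invert hid1
  rw [invert_sum] at hid2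
  have hid3 : ∑ S : Finset (Fin k), term Γ.cpoly (fun e => -n e) S =
      ((-1) ^ (nS n univ).natAbs * T (-(3 * nS n univ))) * (-T 2 - T (-2)) ^ (1 + (Γ.verts + k)) * 
        LaurentPolynomial.invert (Γ.link n).std.bracket := by
    rw [hid2]
    simp only [map_mul, map_pow, map_sub, map_neg, map_one, LaurentPolynomial.invert_T, neg_neg]
    congr 2
    ring
  obtain ⟨c', hc', h2⟩ := top_bracket Γ (fun e => -n e) _ _ _ _ hid3 P' hP' (by
    intro S hS hne
    rw [nS_neg, nS_neg]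
    exact hmax' S hS hne)
  rw [nS_neg] at h2
  have hinv : ∀ j, (LaurentPolynomial.invert (Γ.link n).std.bracket).coeff j = 
      (Γ.link n).std.bracket.coeff (-j) := fun j => LaurentPolynomial.invert_apply _ _
  refine ⟨-(4 * (-nS n P' + dd Γ P') - (-(3 * nS n univ) + 2 * ((1 + (Γ.verts + k) : ℕ) : ℤ))), 
    4 * (nS n P + dd Γ P) - (3 * nS n univ + 2 * ((1 + (Γ.verts + k) : ℕ) : ℤ)), ?_, ?_, ?_, ?_⟩
  · push_cast
    ring
  · intro j hj
    constructor
    · by_contra hcon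
      have := h2.2 (-j) (by linarith)
      rw [hinv, neg_neg] at this
      exact hj this
    · by_contra hcon
      exact hj (h1.2 j (by linarith))
  · rw [← hinv, h2.1]
    exact hc'
  · rw [h1.1]
    exact hc

end Pool.Agent.H953R3.JT
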