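import Pool.Agent.H953R3.JT.Ext
import Pool.Agent.H891R2.SI.S6

set_option autoImplicit false

/-! Assembly of the polynomial twist theorem. -/

namespace Pool.Agent.H953R3.JT

open Finset LaurentPolynomial Pool.Agent.H891R2.Jones Pool.Agent.H891R2.MT
open Pool.Agent.H891R2.MT.T4b (SIn term SIn_term)

variable {k : ℕ}

open Classical in
/-- the bridgeless spanning subgraphs (given by their edge sets) -/
noncomputable def bridgeless (Γ : Ribbon k) : Finset (Finset (Fin k)) :=
  Finset.univ.filter (fun S => ∀ e ∈ S, Γ.comps (S.erase e) = Γ.comps S)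

theorem mem_bridgeless (Γ : Ribbon k) (S : Finset (Fin k)) : S ∈ bridgeless Γ ↔ Γ.Bridgeless S := by
  unfold bridgeless Ribbon.Bridgeless
  simp

theorem empty_mem (Γ : Ribbon k) : ∅ ∈ bridgeless Γ := by
  rw [mem_bridgeless]
  intro e he
  exact absurd he (Finset.notMem_empty _)

/-- the largest value of `n(S) + |S| + c(S)` over the bridgeless subgraphs -/
noncomputable def gain (Γ : Ribbon k) (n : Fin k → ℤ) : ℤ :=
  (bridgeless Γ).sup' ⟨∅, empty_mem Γ⟩ (fun S => ∑ e ∈ S, n e + S.card + Γ.comps S)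

/-- the generic span of the Jones polynomial -/
noncomputable def genericSpan (Γ : Ribbon k) (n : Fin k → ℤ) : ℤ :=
  gain Γ n + gain Γ (fun e => -n e) - (1 + Γ.verts + k)

theorem full_bridgeless (Γ : Ribbon k) (hΓ : Γ.comps Finset.univ = 1) :
    ∃ S, Γ.Bridgeless S ∧ S.card + Γ.comps S = k + 1 := by
  classical
  have hne : (Finset.univ.filter (fun S : Finset (Fin k) => S.card + Γ.comps S = k + 1)).Nonempty :=
    ⟨Finset.univ, by simp [hΓ]⟩
  obtain ⟨S, hS, hmin⟩ := Finset.exists_min_image _ (fun S : Finset (Fin k) => S.card) hne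
  rw [Finset.mem_filter] at hS
  refine ⟨S, ?_, hS.2⟩
  intro e he
  by_contra hcon
  have h2 := comps_erase Γ S e he
  have h3 : (S.erase e).card + Γ.comps (S.erase e) = k + 1 := by
    rw [Finset.card_erase_of_mem he]
    have : 0 < S.card := Finset.card_pos.2 ⟨e, he⟩
    have := hS.2
    omega
  have h4 := hmin (S.erase e) (Finset.mem_filter.2 ⟨Finset.mem_univ _, h3⟩)
  rw [Finset.card_erase_of_mem he] at h4
  have : 0 < S.card := Finset.card_pos.2 ⟨e, he⟩
  omega

theorem le_gain (Γ : Ribbon k) (n : Fin k → ℤ) (S : Finset (Fin k)) (hS : Γ.Bridgeless S) :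
    ∑ e ∈ S, n e + S.card + Γ.comps S ≤ gain Γ n :=
  Finset.le_sup' (fun S : Finset (Fin k) => ∑ e ∈ S, n e + (S.card : ℤ) + Γ.comps S)
    ((mem_bridgeless Γ S).2 hS)

theorem genericSpan_ge (Γ : Ribbon k) (hΓ : Γ.comps Finset.univ = 1) (n : Fin k → ℤ) :
    (k : ℤ) + 1 - Γ.verts ≤ genericSpan Γ n := by
  obtain ⟨S, hS, hc⟩ := full_bridgeless Γ hΓ
  have h1 := le_gain Γ n S hS
  have h2 := le_gain Γ (fun e => -n e) S hS
  rw [Finset.sum_neg_distrib] at h2
  unfold genericSpan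
  have hc' : (S.card : ℤ) + Γ.comps S = k + 1 := by exact_mod_cast hc
  linarith

/-- the Jones polynomial has the generic span, and its extreme coefficients are `± 1` -/
def Sharp (Γ : Ribbon k) (n : Fin k → ℤ) : Prop :=
  ∀ D : Diagram (Ribbon.Pt n), Orients D (Γ.link n) →
    ∃ m : ℤ, (∀ j, D.fPoly.coeff j ≠ 0 → m ≤ j ∧ j ≤ m + 4 * genericSpan Γ n) ∧
      |D.fPoly.coeff m| = 1 ∧ |D.fPoly.coeff (m + 4 * genericSpan Γ n)| = 1

theorem coeff_T_mul' (m j : ℤ) (f : ℤ[T;T⁻¹]) : (T m * f).coeff j = f.coeff (j - m) := by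
  have h := Pool.Agent.H891R2.SI.S6.coeff_T_mul m f (j - m)
  rwa [add_sub_cancel] at h

theorem fPoly_coeff {P : Type} [Fintype P] [DecidableEq P] [Nonempty P] (D : Diagram P) 
    (U : UDiagram P) (h : Orients D U) : 
    ∃ (s w : ℤ), |s| = 1 ∧ ∀ j, D.fPoly.coeff j = s * U.std.bracket.coeff (j - w) := by
  have hbr : D.bracket = U.std.bracket := T6.bracket_orients D _ h
  refine ⟨if Even D.writhe then 1 else -1, -3 * D.writhe, by split_ifs <;> simp, ?_⟩
  intro j
  unfold Diagram.fPoly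
  rw [hbr]
  by_cases hw : Even D.writhe
  · rw [if_pos hw, if_pos hw, one_mul, one_mul, coeff_T_mul']
  · rw [if_neg hw, if_neg hw]
    have e0 : (-1 : ℤ[T;T⁻¹]) * T (-3 * D.writhe) * U.std.bracket = 
        -(T (-3 * D.writhe) * U.std.bracket) := by ring
    rw [e0]
    have : (-(T (-3 * D.writhe) * U.std.bracket)).coeff j = 
        -((T (-3 * D.writhe) * U.std.bracket).coeff j) := rfl
    rw [this, coeff_T_mul', neg_one_mul]

theorem sharp_of_unique (Γ : Ribbon k) (hΓ : Γ.Planar) (hk : 0 < k) (n : Fin k → ℤ)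
    (P P' : Finset (Fin k)) (hP : Γ.Bridgeless P) (hP' : Γ.Bridgeless P')
    (hmax : ∀ S, Γ.Bridgeless S → S ≠ P → nS n S + dd Γ S < nS n P + dd Γ P)
    (hmax' : ∀ S, Γ.Bridgeless S → S ≠ P' → -nS n S + dd Γ S < -nS n P' + dd Γ P') :
    Sharp Γ n := by
  have hne : Nonempty (Ribbon.Pt n) := ⟨⟨⟨0, hk⟩, 0, true⟩⟩
  obtain ⟨lo, hi, h1, h2, h3, h4⟩ := bracket_ext Γ hΓ hk n P P' hP hP' hmax hmax'
  have g1 : gain Γ n = nS n P + dd Γ P := by
    apply le_antisymm
    · unfold gain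
      apply Finset.sup'_le
      intro S hS
      rw [mem_bridgeless] at hS
      by_cases h : S = P
      · subst h; unfold nS dd; linarith
      · have := hmax S hS h
        unfold nS dd at this ⊢
        linarith
    · have := le_gain Γ n P hP
      unfold nS dd
      linarith
  have g2 : gain Γ (fun e => -n e) = -nS n P' + dd Γ P' := by
    apply le_antisymm
    · unfold gain
      apply Finset.sup'_le
      intro S hS
      rw [mem_bridgeless] at hS
      rw [Finset.sum_neg_distrib]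
      by_cases h : S = P'
      · subst h; unfold nS dd; linarith
      · have := hmax' S hS h
        unfold nS dd at this ⊢
        linarith
    · have := le_gain Γ (fun e => -n e) P' hP'
      rw [Finset.sum_neg_distrib] at this
      unfold nS dd
      linarith
  have g3 : hi = lo + 4 * genericSpan Γ n := by
    unfold genericSpan
    rw [g1, g2]
    linarith
  intro D hD
  obtain ⟨s, w, hs, hc⟩ := fPoly_coeff D _ hD
  refine ⟨lo + w, ?_, ?_, ?_⟩
  · intro j hj
    rw [hc] at hj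
    have := h2 _ (right_ne_zero_of_mul hj)
    constructor <;> linarith [this.1, this.2]
  · rw [hc, abs_mul, hs, one_mul, add_sub_cancel_right]
    exact h3
  · rw [hc, abs_mul, hs, one_mul]
    have e : lo + w + 4 * genericSpan Γ n - w = hi := by rw [g3]; ring
    rw [e]
    exact h4

open Classical in
/-- almost all links have sharp Jones polynomials -/
theorem count_sharp (Γ : Ribbon k) (hΓ : Γ.Planar) (hk : 0 < k) (A : Fin k → Finset ℤ)
    (M : ℕ) (hM : ∀ e, M ≤ (A e).card) :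
    M * #{n ∈ Fintype.piFinset A | ¬ Sharp Γ n} ≤ 2 * k * ∏ e, (A e).card := by
  have h1 := isolation 1 (Or.inl rfl) (dd Γ) (bridgeless Γ) 0 A M hM
  have h2 := isolation (-1) (Or.inr rfl) (dd Γ) (bridgeless Γ) 0 A M hM
  -- if the maximiser is unique
  have huniq : ∀ (σ : ℤ) (n : Fin k → ℤ), 
      ¬ (∃ S S', S ≠ S' ∧ Near σ (dd Γ) (bridgeless Γ) 0 n S ∧ Near σ (dd Γ) (bridgeless Γ) 0 n S') → 
      ∃ P, Γ.Bridgeless P ∧ ∀ S, Γ.Bridgeless S → S ≠ P → σ * nS n S + dd Γ S < σ * nS n P + dd Γ P := by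
    intro σ n hno
    obtain ⟨P, hP, hmax⟩ := (bridgeless Γ).exists_max_image (fun S => wt σ (dd Γ) n S) ⟨∅, empty_mem Γ⟩
    refine ⟨P, (mem_bridgeless Γ P).1 hP, fun S hS hne => ?_⟩
    have hS' := (mem_bridgeless Γ S).2 hS
    have hle := hmax S hS'
    have hlt : wt σ (dd Γ) n S ≠ wt σ (dd Γ) n P := by
      intro heq
      apply hno
      refine ⟨S, P, hne, ⟨hS', fun S' h' => ?_⟩, ⟨hP, fun S' h' => ?_⟩⟩
      · rw [heq]
        have := hmax S' h'
        simpa using this
      · have := hmax S' h'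
        simpa using this
    have := lt_of_le_of_ne hle hlt
    exact this
  have hsub : ({n ∈ Fintype.piFinset A | ¬ Sharp Γ n}) ⊆ 
      ({n ∈ Fintype.piFinset A | ∃ S S', S ≠ S' ∧ Near 1 (dd Γ) (bridgeless Γ) 0 n S ∧ 
        Near 1 (dd Γ) (bridgeless Γ) 0 n S'}) ∪ 
      ({n ∈ Fintype.piFinset A | ∃ S S', S ≠ S' ∧ Near (-1) (dd Γ) (bridgeless Γ) 0 n S ∧ 
        Near (-1) (dd Γ) (bridgeless Γ) 0 n S'}) := by
    intro n hn
    rw [Finset.mem_filter] at hn
    rw [Finset.mem_union, Finset.mem_filter, Finset.mem_filter]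
    by_contra hcon
    rw [not_or] at hcon
    have c1 : ¬ (∃ S S', S ≠ S' ∧ Near 1 (dd Γ) (bridgeless Γ) 0 n S ∧ 
        Near 1 (dd Γ) (bridgeless Γ) 0 n S') := fun h => hcon.1 ⟨hn.1, h⟩
    have c2 : ¬ (∃ S S', S ≠ S' ∧ Near (-1) (dd Γ) (bridgeless Γ) 0 n S ∧ 
        Near (-1) (dd Γ) (bridgeless Γ) 0 n S') := fun h => hcon.2 ⟨hn.1, h⟩
    obtain ⟨P, hP, hmax⟩ := huniq 1 n c1
    obtain ⟨P', hP', hmax'⟩ := huniq (-1) n c2
    refine hn.2 (sharp_of_unique Γ hΓ hk n P P' hP hP' ?_ ?_)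
    · intro S hS hne
      have := hmax S hS hne
      rwa [one_mul, one_mul] at this
    · intro S hS hne
      have := hmax' S hS hne
      rwa [neg_one_mul, neg_one_mul] at this
  have h3 := (Finset.card_le_card hsub).trans (Finset.card_union_le _ _)
  have h4 := Nat.mul_le_mul_left M h3
  rw [Nat.mul_add] at h4
  refine (h4.trans (Nat.add_le_add h1 h2)).trans (le_of_eq ?_)
  generalize ∏ e, (A e).card = Q
  ring

end Pool.Agent.H953R3.JT
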