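import Mathlib

set_option autoImplicit false

/-! Isolation lemmas: counting integer weights for which several sets of a family have nearly
maximal weight. -/

namespace Pool.Agent.H953R3.JT

open Finset

variable {k : ℕ}

/-- the weight `σ n(S) + w(S)` -/
def wt (σ : ℤ) (w : Finset (Fin k) → ℤ) (n : Fin k → ℤ) (S : Finset (Fin k)) : ℤ :=
  σ * ∑ e ∈ S, n e + w S

/-- `S` belongs to the family `F` and its weight is maximal up to `g` -/
def Near (σ : ℤ) (w : Finset (Fin k) → ℤ) (F : Finset (Finset (Fin k))) (g : ℕ) (n : Fin k → ℤ)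
    (S : Finset (Fin k)) : Prop :=
  S ∈ F ∧ ∀ S' ∈ F, wt σ w n S' ≤ wt σ w n S + g

theorem count_fiber (A : Fin k → Finset ℤ) (M G : ℕ) (hM : ∀ i, M ≤ (A i).card)
    (I : Finset (Fin k)) (B : Finset (Fin k → ℤ)) (hB : B ⊆ Fintype.piFinset A)
    (h : ∀ n ∈ B, ∀ n' ∈ B, (∀ i ∉ I, n i = n' i) → ∀ i ∈ I, |n i - n' i| ≤ G) :
    M ^ I.card * B.card ≤ (G + 1) ^ I.card * ∏ i, (A i).card := by
  classical
  let r : (Fin k → ℤ) → (Fin k → ℤ) := fun n i => if i ∈ I then 0 else n i
  let R : Finset (Fin k → ℤ) := Fintype.piFinset (fun i => if i ∈ I then {0} else A i)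
  have hmaps : ∀ n ∈ B, r n ∈ R := by
    intro n hn
    rw [Fintype.mem_piFinset]
    intro i
    have := (Fintype.mem_piFinset.1 (hB hn)) i
    by_cases hi : i ∈ I <;> simp [r, hi, this]
  have hfib : ∀ b ∈ R, #{n ∈ B | r n = b} ≤ (G + 1) ^ I.card := by
    intro b _
    rcases Finset.eq_empty_or_nonempty ({n ∈ B | r n = b}) with he | hne
    · rw [he]; simp
    · have hmin : ∀ i : Fin k, ∃ x : ℤ, (∃ n ∈ B, r n = b ∧ n i = x) ∧
          ∀ n ∈ B, r n = b → x ≤ n i := by
        intro i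
        obtain ⟨n0, hn0, hmin⟩ := Finset.exists_min_image _ (fun n => n i) hne
        rw [Finset.mem_filter] at hn0
        exact ⟨n0 i, ⟨n0, hn0.1, hn0.2, rfl⟩, fun n hn hr => hmin n (Finset.mem_filter.2 ⟨hn, hr⟩)⟩
      choose x hx1 hx2 using hmin
      have hsub : ({n ∈ B | r n = b}) ⊆ Fintype.piFinset
          (fun i => if i ∈ I then Finset.Icc (x i) (x i + G) else {b i}) := by
        intro n hn
        rw [Finset.mem_filter] at hn
        rw [Fintype.mem_piFinset]
        intro i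
        by_cases hi : i ∈ I
        · simp only [hi, if_true, Finset.mem_Icc]
          refine ⟨hx2 i n hn.1 hn.2, ?_⟩
          obtain ⟨n', hn', hr', hx'⟩ := hx1 i
          have := h n hn.1 n' hn' (by
            intro j hj
            have h1 := congrFun hn.2 j
            have h2 := congrFun hr' j
            simp only [r, hj, if_false] at h1 h2
            rw [h1, h2]) i hi
          rw [hx'] at this
          have := (abs_le.1 this).2
          linarith
        · simp only [hi, if_false, Finset.mem_singleton]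
          have h1 := congrFun hn.2 i
          simp only [r, hi, if_false] at h1
          exact h1
      calc #{n ∈ B | r n = b} ≤ _ := Finset.card_le_card hsub
        _ = ∏ i, (if i ∈ I then (G + 1) else 1) := by
            rw [Fintype.card_piFinset]
            refine Finset.prod_congr rfl fun i _ => ?_
            by_cases hi : i ∈ I
            · simp only [hi, if_true, Int.card_Icc]
              omega
            · simp [hi]
        _ = (G + 1) ^ I.card := by
            rw [Finset.prod_ite_mem, Finset.univ_inter, Finset.prod_const]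
  have h1 := Finset.card_le_mul_card_image_of_maps_to hmaps _ hfib
  have hR : R.card = ∏ i ∈ Iᶜ, (A i).card := by
    rw [Fintype.card_piFinset, ← Finset.prod_mul_prod_compl I]
    rw [Finset.prod_eq_one (s := I) (fun i hi => by simp [hi]), one_mul]
    refine Finset.prod_congr rfl fun i hi => ?_
    rw [Finset.mem_compl] at hi
    simp [hi]
  have h2 : M ^ I.card ≤ ∏ i ∈ I, (A i).card := by
    rw [← Finset.prod_const]
    exact Finset.prod_le_prod' (fun i _ => hM i)
  calc M ^ I.card * B.card ≤ (∏ i ∈ I, (A i).card) * ((G + 1) ^ I.card * ∏ i ∈ Iᶜ, (A i).card) := by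
        refine Nat.mul_le_mul h2 ?_
        rw [← hR]
        exact h1
    _ = (G + 1) ^ I.card * ∏ i, (A i).card := by
        rw [← Finset.prod_mul_prod_compl I]
        ring

/-- the difference of the weights of two vectors -/
theorem sum_diff (n n' : Fin k → ℤ) (I : Finset (Fin k)) (hI : ∀ i ∉ I, n i = n' i)
    (S : Finset (Fin k)) : ∑ e ∈ S, n e - ∑ e ∈ S, n' e = ∑ e ∈ S ∩ I, (n e - n' e) := by
  classical
  rw [← Finset.sum_sub_distrib]
  symm
  apply Finset.sum_subset Finset.inter_subset_left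
  intro e he hne
  rw [Finset.mem_inter, not_and] at hne
  rw [hI e (hne he), sub_self]

/-- `e` is an ambiguous element: there are nearly optimal sets with and without `e`, whose
intersections with `J` (not containing `e`) are the same set `U` -/
def Amb (σ : ℤ) (w : Finset (Fin k) → ℤ) (F : Finset (Finset (Fin k))) (g : ℕ) (J U : Finset (Fin k))
    (e : Fin k) (n : Fin k → ℤ) : Prop :=
  ∃ S0 S1, Near σ w F g n S0 ∧ Near σ w F g n S1 ∧ e ∉ S0 ∧ e ∈ S1 ∧ S0 ∩ J = U ∧ S1 ∩ J = U

theorem amb_close (σ : ℤ) (hσ : σ = 1 ∨ σ = -1) (w : Finset (Fin k) → ℤ)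
    (F : Finset (Finset (Fin k))) (g : ℕ) (J U : Finset (Fin k)) (e : Fin k) (_heJ : e ∉ J)
    (n n' : Fin k → ℤ) (hn : Amb σ w F g J U e n) (hn' : Amb σ w F g J U e n')
    (hag : ∀ i ∉ insert e J, n i = n' i) : |n e - n' e| ≤ (2 * g : ℕ) := by
  classical
  -- a one-sided version
  have key : ∀ m m' : Fin k → ℤ, Amb σ w F g J U e m → Amb σ w F g J U e m' →
      (∀ i ∉ insert e J, m i = m' i) → σ * (m e - m' e) ≤ (2 * g : ℕ) := by
    intro m m' hm hm' hag
    obtain ⟨S0, S1, a0, a1, b0, b1, c0, c1⟩ := hm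
    obtain ⟨S0', S1', a0', a1', b0', b1', c0', c1'⟩ := hm'
    -- S1' for m, S0 for m ; S1' and S0 for m'
    have h1 := a0.2 S1' a1'.1
    have h2 := a1'.2 S0 a0.1
    unfold wt at h1 h2
    have d1 := sum_diff m m' (insert e J) hag S1'
    have d0 := sum_diff m m' (insert e J) hag S0
    have i1 : S1' ∩ insert e J = insert e U := by
      rw [Finset.inter_insert_of_mem b1', c1']
    have i0 : S0 ∩ insert e J = U := by
      rw [Finset.inter_insert_of_notMem b0, c0]
    have heU : e ∉ U := by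
      rw [← c0]
      intro h
      exact b0 (Finset.mem_inter.1 h).1
    rw [i1, Finset.sum_insert heU] at d1
    rw [i0] at d0
    push_cast
    have e1 : ∑ e ∈ S1', m e = ∑ e ∈ S1', m' e + ((m e - m' e) + ∑ x ∈ U, (m x - m' x)) := by linarith
    have e0 : ∑ e ∈ S0, m e = ∑ e ∈ S0, m' e + ∑ x ∈ U, (m x - m' x) := by linarith
    rw [e1, e0] at h1
    linarith
  have k1 := key n n' hn hn' hag
  have k2 := key n' n hn' hn (fun i hi => (hag i hi).symm)
  rw [abs_le]
  rcases hσ with rfl | rfl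
  · constructor <;> linarith
  · constructor <;> linarith

open Classical in
/-- one ambiguous element -/
theorem count_one (σ : ℤ) (hσ : σ = 1 ∨ σ = -1) (w : Finset (Fin k) → ℤ)
    (F : Finset (Finset (Fin k))) (g : ℕ) (A : Fin k → Finset ℤ) (M : ℕ)
    (hM : ∀ i, M ≤ (A i).card) (e : Fin k) :
    M * #{n ∈ Fintype.piFinset A | Amb σ w F g ∅ ∅ e n} ≤ (2 * g + 1) * ∏ i, (A i).card := by
  have h := count_fiber A M (2 * g) hM {e} ({n ∈ Fintype.piFinset A | Amb σ w F g ∅ ∅ e n})
    (Finset.filter_subset _ _) (by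
      intro n hn n' hn' hag i hi
      rw [Finset.mem_filter] at hn hn'
      rw [Finset.mem_singleton] at hi
      subst hi
      exact amb_close σ hσ w F g ∅ ∅ i (by simp) n n' hn.2 hn'.2 (by simpa using hag))
  simpa using h

open Classical in
/-- two ambiguous elements -/
theorem count_two (σ : ℤ) (hσ : σ = 1 ∨ σ = -1) (w : Finset (Fin k) → ℤ)
    (F : Finset (Finset (Fin k))) (g : ℕ) (A : Fin k → Finset ℤ) (M : ℕ)
    (hM : ∀ i, M ≤ (A i).card) (e f : Fin k) (hef : e ≠ f) (U V : Finset (Fin k)) :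
    M ^ 2 * #{n ∈ Fintype.piFinset A | Amb σ w F g {f} U e n ∧ Amb σ w F g {e} V f n} ≤
      (2 * g + 1) ^ 2 * ∏ i, (A i).card := by
  have hc : ({e, f} : Finset (Fin k)).card = 2 := Finset.card_pair hef
  have h := count_fiber A M (2 * g) hM {e, f}
    ({n ∈ Fintype.piFinset A | Amb σ w F g {f} U e n ∧ Amb σ w F g {e} V f n})
    (Finset.filter_subset _ _) (by
      intro n hn n' hn' hag i hi
      rw [Finset.mem_filter] at hn hn'
      rw [Finset.mem_insert, Finset.mem_singleton] at hi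
      rcases hi with rfl | rfl
      · exact amb_close σ hσ w F g {f} U i (by simpa using hef) n n' hn.2.1 hn'.2.1 hag
      · exact amb_close σ hσ w F g {e} V i (by simpa using hef.symm) n n' hn.2.2 hn'.2.2
          (by rw [Finset.pair_comm]; exact hag))
  rw [hc] at h
  exact h

open Classical in
/-- the isolation lemma: two different nearly optimal sets -/
theorem isolation (σ : ℤ) (hσ : σ = 1 ∨ σ = -1) (w : Finset (Fin k) → ℤ)
    (F : Finset (Finset (Fin k))) (g : ℕ) (A : Fin k → Finset ℤ) (M : ℕ)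
    (hM : ∀ i, M ≤ (A i).card) :
    M * #{n ∈ Fintype.piFinset A | ∃ S S', S ≠ S' ∧ Near σ w F g n S ∧ Near σ w F g n S'} ≤
      k * (2 * g + 1) * ∏ i, (A i).card := by
  have hsub : ({n ∈ Fintype.piFinset A | ∃ S S', S ≠ S' ∧ Near σ w F g n S ∧ Near σ w F g n S'}) ⊆
      (Finset.univ : Finset (Fin k)).biUnion (fun e => 
        {n ∈ Fintype.piFinset A | Amb σ w F g ∅ ∅ e n}) := by
    intro n hn
    rw [Finset.mem_filter] at hn
    obtain ⟨hnA, S, S', hne, h1, h2⟩ := hn
    obtain ⟨e, he⟩ : ∃ e, ¬ (e ∈ S ↔ e ∈ S') := by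
      by_contra hcon
      push Not at hcon
      exact hne (Finset.ext hcon)
    rw [Finset.mem_biUnion]
    refine ⟨e, Finset.mem_univ _, Finset.mem_filter.2 ⟨hnA, ?_⟩⟩
    by_cases hS : e ∈ S
    · have hS' : e ∉ S' := fun h => he ⟨fun _ => h, fun _ => hS⟩
      exact ⟨S', S, h2, h1, hS', hS, by simp, by simp⟩
    · have hS' : e ∈ S' := by
        by_contra h
        exact he ⟨fun h' => absurd h' hS, fun h' => absurd h' h⟩
      exact ⟨S, S', h1, h2, hS, hS', by simp, by simp⟩
  calc _ ≤ M * ∑ e : Fin k, #{n ∈ Fintype.piFinset A | Amb σ w F g ∅ ∅ e n} :=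
        Nat.mul_le_mul_left _ ((Finset.card_le_card hsub).trans Finset.card_biUnion_le)
    _ = ∑ e : Fin k, M * #{n ∈ Fintype.piFinset A | Amb σ w F g ∅ ∅ e n} := Finset.mul_sum _ _ _
    _ ≤ ∑ _e : Fin k, (2 * g + 1) * ∏ i, (A i).card :=
        Finset.sum_le_sum fun e _ => count_one σ hσ w F g A M hM e
    _ = _ := by
        rw [Finset.sum_const, Finset.card_univ, Fintype.card_fin, smul_eq_mul, mul_assoc]

open Classical in
/-- the second isolation lemma: three different nearly optimal sets -/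
theorem isolation_three (σ : ℤ) (hσ : σ = 1 ∨ σ = -1) (w : Finset (Fin k) → ℤ)
    (F : Finset (Finset (Fin k))) (g : ℕ) (A : Fin k → Finset ℤ) (M : ℕ)
    (hM : ∀ i, M ≤ (A i).card) :
    M ^ 2 * #{n ∈ Fintype.piFinset A | ∃ S₁ S₂ S₃, S₁ ≠ S₂ ∧ S₁ ≠ S₃ ∧ S₂ ≠ S₃ ∧
        Near σ w F g n S₁ ∧ Near σ w F g n S₂ ∧ Near σ w F g n S₃} ≤
      4 * k ^ 2 * (2 * g + 1) ^ 2 * ∏ i, (A i).card := by
  set P : Finset ((Fin k × Fin k) × (Bool × Bool)) := Finset.univ with hP
  let Bf : (Fin k × Fin k) × (Bool × Bool) → Finset (Fin k → ℤ) := fun p =>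
    {n ∈ Fintype.piFinset A | p.1.1 ≠ p.1.2 ∧ 
      Amb σ w F g {p.1.2} (if p.2.1 then {p.1.2} else ∅) p.1.1 n ∧
      Amb σ w F g {p.1.1} (if p.2.2 then {p.1.1} else ∅) p.1.2 n}
  have hinter : ∀ (S : Finset (Fin k)) (e : Fin k), S ∩ {e} = if (decide (e ∈ S)) then {e} else ∅ := by
    intro S e
    by_cases h : e ∈ S
    · simp [h]
    · simp [h]
  have hinter' : ∀ (S S' : Finset (Fin k)) (e : Fin k), (e ∈ S ↔ e ∈ S') → S ∩ {e} = S' ∩ {e} := by
    intro S S' e h
    rw [hinter, hinter]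
    simp [h]
  have hsub : ({n ∈ Fintype.piFinset A | ∃ S₁ S₂ S₃, S₁ ≠ S₂ ∧ S₁ ≠ S₃ ∧ S₂ ≠ S₃ ∧
        Near σ w F g n S₁ ∧ Near σ w F g n S₂ ∧ Near σ w F g n S₃}) ⊆ P.biUnion Bf := by
    intro n hn
    rw [Finset.mem_filter] at hn
    obtain ⟨hnA, S₁, S₂, S₃, h12, h13, h23, n1, n2, n3⟩ := hn
    -- an element which separates two sets X, Y and does not separate X, Z
    have hsep : ∃ (X Y Z : Finset (Fin k)) (e f : Fin k), Near σ w F g n X ∧ Near σ w F g n Y ∧ 
        Near σ w F g n Z ∧ (e ∈ X ↔ e ∈ Z) ∧ ¬ (e ∈ X ↔ e ∈ Y) ∧ ¬ (f ∈ X ↔ f ∈ Z) := by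
      obtain ⟨e, he⟩ : ∃ e, ¬ (e ∈ S₁ ↔ e ∈ S₂) := by
        by_contra hcon
        push Not at hcon
        exact h12 (Finset.ext hcon)
      by_cases h : (e ∈ S₁ ↔ e ∈ S₃)
      · obtain ⟨f, hf⟩ : ∃ f, ¬ (f ∈ S₁ ↔ f ∈ S₃) := by
          by_contra hcon
          push Not at hcon
          exact h13 (Finset.ext hcon)
        exact ⟨S₁, S₂, S₃, e, f, n1, n2, n3, h, he, hf⟩
      · have h' : (e ∈ S₂ ↔ e ∈ S₃) := by tauto
        obtain ⟨f, hf⟩ : ∃ f, ¬ (f ∈ S₂ ↔ f ∈ S₃) := by
          by_contra hcon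
          push Not at hcon
          exact h23 (Finset.ext hcon)
        exact ⟨S₂, S₁, S₃, e, f, n2, n1, n3, h', fun h => he h.symm, hf⟩
    obtain ⟨X, Y, Z, e, f, nX, nY, nZ, hXZ, hXY, hf⟩ := hsep
    have hef : e ≠ f := by
      rintro rfl
      exact hf hXZ
    -- the element `f` is ambiguous because of `X` and `Z`
    have hambf : Amb σ w F g {e} (if (decide (e ∈ X)) then {e} else ∅) f n := by
      have hi := hinter' X Z e hXZ
      by_cases hfX : f ∈ X
      · have hfZ : f ∉ Z := fun h => hf ⟨fun _ => h, fun _ => hfX⟩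
        exact ⟨Z, X, nZ, nX, hfZ, hfX, by rw [← hi, hinter], by rw [hinter]⟩
      · have hfZ : f ∈ Z := by
          by_contra h
          exact hf ⟨fun h' => absurd h' hfX, fun h' => absurd h' h⟩
        exact ⟨X, Z, nX, nZ, hfX, hfZ, by rw [hinter], by rw [← hi, hinter]⟩
    -- the element `e` is ambiguous because of `Y` and one of `X`, `Z`
    have hambe : Amb σ w F g {f} (if (decide (f ∈ Y)) then {f} else ∅) e n := by
      obtain ⟨W, nW, hWf, hWe⟩ : ∃ W, Near σ w F g n W ∧ (f ∈ W ↔ f ∈ Y) ∧ ¬ (e ∈ W ↔ e ∈ Y) := by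
        by_cases h : (f ∈ X ↔ f ∈ Y)
        · exact ⟨X, nX, h, hXY⟩
        · exact ⟨Z, nZ, by tauto, by tauto⟩
      have hi := hinter' W Y f hWf
      by_cases heW : e ∈ W
      · have heY : e ∉ Y := fun h => hWe ⟨fun _ => h, fun _ => heW⟩
        exact ⟨Y, W, nY, nW, heY, heW, by rw [hinter], by rw [hi, hinter]⟩
      · have heY : e ∈ Y := by
          by_contra h
          exact hWe ⟨fun h' => absurd h' heW, fun h' => absurd h' h⟩
        exact ⟨W, Y, nW, nY, heW, heY, by rw [hi, hinter], by rw [hinter]⟩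
    rw [Finset.mem_biUnion]
    exact ⟨((e, f), (decide (f ∈ Y), decide (e ∈ X))), Finset.mem_univ _, 
      Finset.mem_filter.2 ⟨hnA, hef, hambe, hambf⟩⟩
  have hB : ∀ p ∈ P, M ^ 2 * (Bf p).card ≤ (2 * g + 1) ^ 2 * ∏ i, (A i).card := by
    rintro ⟨⟨e, f⟩, ⟨a, b⟩⟩ _
    by_cases hef : e = f
    · have : Bf ((e, f), (a, b)) = ∅ := by
        simp only [Bf]
        apply Finset.filter_false_of_mem
        intro n _ h
        exact h.1 hef
      rw [this]
      simp
    · refine le_trans (Nat.mul_le_mul_left _ (Finset.card_le_card ?_)) 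
        (count_two σ hσ w F g A M hM e f hef (if a then {f} else ∅) (if b then {e} else ∅))
      intro n hn
      simp only [Bf, Finset.mem_filter] at hn ⊢
      exact ⟨hn.1, hn.2.2.1, hn.2.2.2⟩
  have hPc : P.card = 4 * k ^ 2 := by
    rw [hP, Finset.card_univ, Fintype.card_prod, Fintype.card_prod, Fintype.card_prod]
    simp only [Fintype.card_fin, Fintype.card_bool]
    ring
  calc _ ≤ M ^ 2 * ∑ p ∈ P, (Bf p).card :=
        Nat.mul_le_mul_left _ ((Finset.card_le_card hsub).trans Finset.card_biUnion_le)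
    _ = ∑ p ∈ P, M ^ 2 * (Bf p).card := Finset.mul_sum _ _ _
    _ ≤ ∑ _p ∈ P, (2 * g + 1) ^ 2 * ∏ i, (A i).card := Finset.sum_le_sum hB
    _ = _ := by
        rw [Finset.sum_const, smul_eq_mul, hPc]
        ring

end Pool.Agent.H953R3.JT
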