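import Pool.Agent.H891R2.MT.T8
import Pool.Agent.H953R3.JT.Iso

set_option autoImplicit false

/-! If the Jones polynomial of a twisted plane graph has a small span, then three bridgeless
subgraphs have nearly extremal twist numbers. -/

namespace Pool.Agent.H953R3.JT

open Finset LaurentPolynomial Pool.Agent.H891R2.Jones Pool.Agent.H891R2.MT
open Pool.Agent.H891R2.MT.T4b (SIn term SIn_term)

variable {k : ℕ}

/-- The top cluster survives (version of `T4b.top_cluster` with a weaker hypothesis). -/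
theorem top_cluster' (t : Finset (Fin k) → ℤ → ℤ) (a : Finset (Fin k) → ℤ)
    (SS : Finset (Fin k) → Prop) (D : ℕ) (h0 : ∀ S j, t S j ≠ 0 → SS S ∧
      4 * a S - 4 * D ≤ j ∧ j ≤ 4 * a S + 4 * D)
    (hone : ∀ S, SS S → ∃ j, t S j ≠ 0)
    (hpair : ∀ S S', SS S → SS S' → ∃ j, t S j + t S' j ≠ 0)
    (S1 : Finset (Fin k)) (hS1 : SS S1) (hmax : ∀ S, SS S → a S ≤ a S1)
    (hno : ∀ S' S'', SS S' → SS S'' → S1 ≠ S' → S1 ≠ S'' → S' ≠ S'' →
      a S1 ≤ a S' + (4 * D + 4) → a S1 ≤ a S'' + (4 * D + 4) → False) :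
    ∃ j, 4 * a S1 - 12 * D - 8 ≤ j ∧ ∑ S, t S j ≠ 0 := by
  by_cases hc : ∃ S2, SS S2 ∧ S2 ≠ S1 ∧ a S1 - (2 * D + 2) ≤ a S2
  · obtain ⟨S2, hS2, hne, ha⟩ := hc
    obtain ⟨j, hj⟩ := hpair S1 S2 hS1 hS2
    have hmax2 := hmax S2 hS2
    have hjlow : 4 * a S1 - 12 * D - 8 ≤ j := by
      by_cases h1 : t S1 j = 0
      · by_cases h2 : t S2 j = 0
        · rw [h1, h2] at hj; exact absurd rfl hj
        · have := (h0 S2 j h2).2.1; omega
      · have := (h0 S1 j h1).2.1; omega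
    refine ⟨j, hjlow, ?_⟩
    have hsum : ∑ S, t S j = t S1 j + t S2 j := by
      rw [← Finset.sum_pair (f := fun S => t S j) hne.symm]
      symm
      apply Finset.sum_subset (Finset.subset_univ _)
      intro S _ hS
      simp only [Finset.mem_insert, Finset.mem_singleton, not_or] at hS
      by_contra hne0
      obtain ⟨k1, k2, k3⟩ := h0 S j hne0
      exact hno S2 S hS2 k1 hne.symm (Ne.symm hS.1) (Ne.symm hS.2) (by omega) (by omega)
    rw [hsum]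
    exact hj
  · push Not at hc
    obtain ⟨j, hj⟩ := hone S1 hS1
    have hj2 := (h0 S1 j hj).2.1
    refine ⟨j, by omega, ?_⟩
    have hsum : ∑ S, t S j = t S1 j := by
      apply Finset.sum_eq_single S1
      · intro S _ hS
        by_contra hne0
        obtain ⟨k1, k2, k3⟩ := h0 S j hne0
        have := hc S k1 hS
        omega
      · intro h; exact absurd (Finset.mem_univ _) h
    rw [hsum]
    exact hj

/-- three different nearly optimal sets -/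
def Three (σ : ℤ) (F : Finset (Finset (Fin k))) (g : ℕ) (n : Fin k → ℤ) : Prop :=
  ∃ S₁ S₂ S₃, S₁ ≠ S₂ ∧ S₁ ≠ S₃ ∧ S₂ ≠ S₃ ∧
    Near σ 0 F g n S₁ ∧ Near σ 0 F g n S₂ ∧ Near σ 0 F g n S₃

/-- the cluster argument, located at the maximum or at the minimum -/
theorem cluster3 (c : Finset (Fin k) → Polynomial ℤ) (D M : ℕ)
    (hc : ∀ S, c S = 0 ∨ (c S).Monic) (hD : ∀ S, (c S).natDegree ≤ D)
    (h3 : ∃ S1 S2 S3 : Finset (Fin k), S1 ≠ S2 ∧ S1 ≠ S3 ∧ S2 ≠ S3 ∧ c S1 ≠ 0 ∧ c S2 ≠ 0 ∧ c S3 ≠ 0)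
    (n : Fin k → ℤ) (g : ℤ[T;T⁻¹]) (lo hi : ℤ) (hg : SIn g lo hi) (hlh : hi - lo ≤ 4 * M)
    (h : ∑ S : Finset (Fin k), ((-1 : ℤ[T;T⁻¹]) ^ (nS n S).natAbs * T (4 * nS n S)) *
        Polynomial.aeval ((-T 2 - T (-2)) ^ 2 : ℤ[T;T⁻¹]) (c S) = g)
    (F : Finset (Finset (Fin k))) (hF : ∀ S, S ∈ F ↔ c S ≠ 0) :
    Three 1 F (6 * D + M + 4) n ∨ Three (-1) F (6 * D + M + 4) n := by
  classical
  by_contra hcon
  rw [not_or] at hcon
  obtain ⟨hcon1, hcon2⟩ := hcon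
  obtain ⟨A1, A2, A3, hA12, hA13, hA23, hA1, hA2, hA3⟩ := h3
  have hFne : F.Nonempty := ⟨A1, (hF _).2 hA1⟩
  obtain ⟨S1, hS1, hmax⟩ := F.exists_max_image (fun S => nS n S) hFne
  obtain ⟨S0, hS0, hmin⟩ := F.exists_min_image (fun S => nS n S) hFne
  have hS1' : c S1 ≠ 0 := (hF _).1 hS1
  have hS0' : c S0 ≠ 0 := (hF _).1 hS0
  have hmax' : ∀ S, c S ≠ 0 → nS n S ≤ nS n S1 := fun S hS => hmax S ((hF _).2 hS)
  have hmin' : ∀ S, c S ≠ 0 → nS n S0 ≤ nS n S := fun S hS => hmin S ((hF _).2 hS)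
  -- near the maximum
  have near1 : ∀ S, c S ≠ 0 → nS n S1 ≤ nS n S + (6 * D + M + 4) →
      Near 1 0 F (6 * D + M + 4) n S := by
    intro S hS h1
    refine ⟨(hF _).2 hS, fun S' hS' => ?_⟩
    have h2 := hmax' S' ((hF _).1 hS')
    unfold nS at h1 h2
    simp only [wt, Pi.zero_apply]
    push_cast
    linarith
  have near0 : ∀ S, c S ≠ 0 → nS n S ≤ nS n S0 + (6 * D + M + 4) →
      Near (-1) 0 F (6 * D + M + 4) n S := by
    intro S hS h1
    refine ⟨(hF _).2 hS, fun S' hS' => ?_⟩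
    have h2 := hmin' S' ((hF _).1 hS')
    unfold nS at h1 h2
    simp only [wt, Pi.zero_apply]
    push_cast
    linarith
  have hno1 : ∀ S S' S'', c S ≠ 0 → c S' ≠ 0 → c S'' ≠ 0 → S ≠ S' → S ≠ S'' → S' ≠ S'' →
      nS n S1 ≤ nS n S + (6 * D + M + 4) → nS n S1 ≤ nS n S' + (6 * D + M + 4) →
      nS n S1 ≤ nS n S'' + (6 * D + M + 4) → False := by
    intro S S' S'' g1 g2 g3 g4 g5 g6 g7 g8 g9
    exact hcon1 ⟨S, S', S'', g4, g5, g6, near1 S g1 g7, near1 S' g2 g8, near1 S'' g3 g9⟩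
  have hno0 : ∀ S S' S'', c S ≠ 0 → c S' ≠ 0 → c S'' ≠ 0 → S ≠ S' → S ≠ S'' → S' ≠ S'' →
      nS n S ≤ nS n S0 + (6 * D + M + 4) → nS n S' ≤ nS n S0 + (6 * D + M + 4) →
      nS n S'' ≤ nS n S0 + (6 * D + M + 4) → False := by
    intro S S' S'' g1 g2 g3 g4 g5 g6 g7 g8 g9
    exact hcon2 ⟨S, S', S'', g4, g5, g6, near0 S g1 g7, near0 S' g2 g8, near0 S'' g3 g9⟩
  have hbig : (6 * D + M + 4 : ℤ) < nS n S1 - nS n S0 := by
    by_contra hle
    push Not at hle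
    have b4 := hmin' A1 hA1
    have b5 := hmin' A2 hA2
    have b6 := hmin' A3 hA3
    exact hno1 A1 A2 A3 hA1 hA2 hA3 hA12 hA13 hA23 (by linarith) (by linarith) (by linarith)
  -- coefficients
  set t : Finset (Fin k) → ℤ → ℤ := fun S j => (term c n S).coeff j with ht
  have hz : ∀ S, c S = 0 → term c n S = 0 := by
    intro S hS
    unfold term
    rw [hS, map_zero, mul_zero]
  have hm : ∀ S, c S ≠ 0 → (c S).Monic := fun S hS => (hc S).resolve_left hS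
  have h0 : ∀ S j, t S j ≠ 0 → c S ≠ 0 ∧ 4 * nS n S - 4 * D ≤ j ∧ j ≤ 4 * nS n S + 4 * D := by
    intro S j hj
    refine ⟨fun hS => hj ?_, SIn_term hD n S j hj⟩
    simp only [ht]
    rw [hz S hS]
    rfl
  have hpair : ∀ S S', c S ≠ 0 → c S' ≠ 0 → ∃ j, t S j + t S' j ≠ 0 := by
    intro S S' hS hS'
    by_contra hcc
    push Not at hcc
    apply pair_ne_zero (c S) (c S') (hm S hS) (hm S' hS') (nS n S) (nS n S')
    change term c n S + term c n S' = 0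
    apply LaurentPolynomial.ext
    intro j
    rw [AddMonoidAlgebra.coeff_add, Finsupp.add_apply]
    exact hcc j
  have hone : ∀ S, c S ≠ 0 → ∃ j, t S j ≠ 0 := by
    intro S hS
    obtain ⟨j, hj⟩ := hpair S S hS hS
    refine ⟨j, fun h0 => hj ?_⟩
    rw [h0, add_zero]
  have hsum : ∀ j, ∑ S, t S j = g.coeff j := by
    intro j
    rw [← h, AddMonoidAlgebra.coeff_sum, Finsupp.finsetSum_apply]
    rfl
  have hM0 : (0 : ℤ) ≤ M := Int.natCast_nonneg M
  have hD0 : (0 : ℤ) ≤ D := Int.natCast_nonneg D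
  obtain ⟨j1, hj1, hj1'⟩ := top_cluster' t (fun S => nS n S) (fun S => c S ≠ 0) D h0 hone hpair
    S1 hS1' hmax' (by
      intro S' S'' g2 g3 g4 g5 g6 g7 g8
      exact hno1 S1 S' S'' hS1' g2 g3 g4 g5 g6 (by linarith) (by linarith) (by linarith))
  obtain ⟨j2, hj2, hj2'⟩ := top_cluster' (fun S j => t S (-j)) (fun S => -nS n S)
    (fun S => c S ≠ 0) D
    (by
      intro S j hj
      obtain ⟨g1, g2, g3⟩ := h0 S (-j) hj
      exact ⟨g1, by omega, by omega⟩)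
    (by
      intro S hS
      obtain ⟨j, hj⟩ := hone S hS
      exact ⟨-j, by simpa using hj⟩)
    (by
      intro S S' hS hS'
      obtain ⟨j, hj⟩ := hpair S S' hS hS'
      exact ⟨-j, by simpa using hj⟩)
    S0 hS0' (by
      intro S hS
      have := hmin' S hS
      omega)
    (by
      intro S' S'' g2 g3 g4 g5 g6 g7 g8
      exact hno0 S0 S' S'' hS0' g2 g3 g4 g5 g6 (by linarith) (by linarith) (by linarith))
  rw [hsum] at hj1'
  rw [hsum] at hj2'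
  have r1 := hg j1 hj1'
  have r2 := hg (-j2) hj2'
  omega

open Classical in
/-- the family of the subgraphs without bridges -/
noncomputable def Fam (Γ : Ribbon k) : Finset (Finset (Fin k)) :=
  Finset.univ.filter (fun S => Γ.cpoly S ≠ 0)

theorem three_of_span (Γ : Ribbon k) (hΓ : Γ.Planar) (hk : Γ.verts + 1 ≤ k) (n : Fin k → ℤ) (s : ℕ)
    (h : SpanLE s (Γ.link n)) :
    Three 1 (Fam Γ) (8 * k + s + 10) n ∨ Three (-1) (Fam Γ) (8 * k + s + 10) n := by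
  have hk0 : 0 < k := by omega
  have hne : Nonempty (Ribbon.Pt n) := ⟨⟨⟨0, hk0⟩, 0, true⟩⟩
  obtain ⟨lo, hb⟩ := T7.bracket_span s _ h
  have hid := identity Γ hΓ hk0 n
  have hd : T4b.SIn ((-T 2 - T (-2) : ℤ[T;T⁻¹]) ^ (1 + (Γ.verts + k))) (-2 * (1 + (Γ.verts + k) : ℕ))
      (2 * (1 + (Γ.verts + k) : ℕ)) := by
    refine (T4b.SIn_d.pow _).mono ?_ ?_ <;> linarith
  have hg := (((T4b.SIn_sgn (nS n univ).natAbs).mul (T4b.SIn.T (3 * nS n univ))).mul hd).mul hb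
  have key := cluster3 Γ.cpoly (k + 1) (s + 1 + Γ.verts + k)
    (fun S => (cpoly_zero_or_monic Γ S).imp id And.left)
    (fun S => by
      rcases cpoly_zero_or_monic Γ S with h1 | ⟨_, h1⟩
      · rw [h1]; simp
      · rw [h1]
        have h2 := card_add_comps_le Γ S
        rw [hΓ.1] at h2
        exact h2)
    (cpoly_three Γ hk hΓ.1) n _ _ _ hg (by push_cast; linarith) hid (Fam Γ)
    (fun S => by simp [Fam])
  have hle : 6 * (k + 1) + (s + 1 + Γ.verts + k) + 4 ≤ 8 * k + s + 10 := by omega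
  have mono : ∀ σ : ℤ, Three σ (Fam Γ) (6 * (k + 1) + (s + 1 + Γ.verts + k) + 4) n → 
      Three σ (Fam Γ) (8 * k + s + 10) n := by
    rintro σ ⟨S₁, S₂, S₃, a1, a2, a3, b1, b2, b3⟩
    have hm : ∀ S, Near σ 0 (Fam Γ) (6 * (k + 1) + (s + 1 + Γ.verts + k) + 4) n S → 
        Near σ 0 (Fam Γ) (8 * k + s + 10) n S := by
      intro S hS
      refine ⟨hS.1, fun S' hS' => (hS.2 S' hS').trans ?_⟩
      have : ((6 * (k + 1) + (s + 1 + Γ.verts + k) + 4 : ℕ) : ℤ) ≤ ((8 * k + s + 10 : ℕ) : ℤ) := by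
        exact_mod_cast hle
      linarith
    exact ⟨S₁, S₂, S₃, a1, a2, a3, hm _ b1, hm _ b2, hm _ b3⟩
  exact key.imp (mono 1) (mono (-1))

open Classical in
theorem count_three (σ : ℤ) (hσ : σ = 1 ∨ σ = -1) (F : Finset (Finset (Fin k))) (g : ℕ)
    (A : Fin k → Finset ℤ) (M : ℕ) (hM : ∀ e, M ≤ (A e).card) :
    M ^ 2 * #{n ∈ Fintype.piFinset A | Three σ F g n} ≤
      4 * k ^ 2 * (2 * g + 1) ^ 2 * ∏ e, (A e).card := by
  have h := isolation_three σ hσ 0 F g A M hM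
  refine le_trans (Nat.mul_le_mul_left _ (Finset.card_le_card ?_)) h
  intro n hn
  rw [Finset.mem_filter] at hn ⊢
  exact hn

open Classical in
/-- few links of small Jones span -/
theorem count_span (Γ : Ribbon k) (hΓ : Γ.Planar) (hk : Γ.verts + 1 ≤ k) (A : Fin k → Finset ℤ)
    (M : ℕ) (hM : ∀ e, M ≤ (A e).card) (s : ℕ) :
    M ^ 2 * #{n ∈ Fintype.piFinset A | SpanLE s (Γ.link n)} ≤
      8 * k ^ 2 * (16 * k + 2 * s + 21) ^ 2 * ∏ e, (A e).card := by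
  obtain ⟨g, hg⟩ : ∃ g, g = 8 * k + s + 10 := ⟨_, rfl⟩
  have h1 := count_three 1 (Or.inl rfl) (Fam Γ) g A M hM
  have h2 := count_three (-1) (Or.inr rfl) (Fam Γ) g A M hM
  have hsub : ({n ∈ Fintype.piFinset A | SpanLE s (Γ.link n)}) ⊆ 
      ({n ∈ Fintype.piFinset A | Three 1 (Fam Γ) g n}) ∪ 
      ({n ∈ Fintype.piFinset A | Three (-1) (Fam Γ) g n}) := by
    intro n hn
    rw [Finset.mem_filter] at hn
    rw [Finset.mem_union, Finset.mem_filter, Finset.mem_filter, hg]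
    exact (three_of_span Γ hΓ hk n s hn.2).imp (fun h => ⟨hn.1, h⟩) (fun h => ⟨hn.1, h⟩)
  have h3 := (Finset.card_le_card hsub).trans (Finset.card_union_le _ _)
  have h4 := Nat.mul_le_mul_left (M ^ 2) h3
  rw [Nat.mul_add] at h4
  have h5 := h4.trans (Nat.add_le_add h1 h2)
  refine h5.trans (le_of_eq ?_)
  have e : 2 * g + 1 = 16 * k + 2 * s + 21 := by rw [hg]; ring
  rw [e]
  generalize ∏ e, (A e).card = Q
  ring

end Pool.Agent.H953R3.JT
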