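import Pool.Agent.H891R2.ZO.Main
import Pool.Agent.H953R3.JT.Ext
import Pool.Agent.H832R3.TW.E

set_option autoImplicit false

/-! A zero-one law for the span of the Jones polynomial in twist families of arbitrary diagrams. -/

namespace Pool.Agent.H953R3.JT

open Finset LaurentPolynomial Pool.Agent.H891R2.Jones Pool.Agent.H891R2.MT Pool.Agent.H891R2.SI
open Pool.Agent.H891R2.MT.T4b (SIn)
open Pool.Agent.H832R3.TW (FSpanLE)

variable {k : ℕ}

/-- two different nearly optimal sets -/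
def TwoS (σ : ℤ) (F : Finset (Finset (Fin k))) (g : ℕ) (n : Fin k → ℤ) : Prop :=
  ∃ S S', S ≠ S' ∧ Near σ 0 F g n S ∧ Near σ 0 F g n S'

open Classical in
theorem count_twoS (σ : ℤ) (hσ : σ = 1 ∨ σ = -1) (F : Finset (Finset (Fin k))) (g : ℕ)
    (A : Fin k → Finset ℤ) (M : ℕ) (hM : ∀ e, M ≤ (A e).card) :
    M * #{n ∈ Fintype.piFinset A | TwoS σ F g n} ≤ k * (2 * g + 1) * ∏ e, (A e).card := by
  have h := isolation σ hσ 0 F g A M hM
  refine le_trans (Nat.mul_le_mul_left _ (Finset.card_le_card ?_)) h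
  intro n hn
  rw [Finset.mem_filter] at hn ⊢
  exact hn

/-- two sets are close to each other at one of the two ends (general form) -/
theorem two_near_gen (Z : Finset (Fin k) → ℤ[T;T⁻¹]) (B : ℕ) (hZ : ∀ R, SIn (Z R) (-B) B)
    (w : Fin k → ℤ) (G : ℤ[T;T⁻¹]) (lo : ℤ) (v g : ℕ) (hv : 2 * B + v ≤ 4 * g)
    (hG : SIn G lo (lo + v))
    (h : ∑ R : Finset (Fin k), ((-1 : ℤ[T;T⁻¹]) ^ (nS w R).natAbs * T (-4 * nS w R)) * Z R = G)
    (F : Finset (Finset (Fin k))) (hF : ∀ R, R ∈ F ↔ Z R ≠ 0)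
    (h2 : ∃ R R' : Finset (Fin k), R ≠ R' ∧ Z R ≠ 0 ∧ Z R' ≠ 0) :
    TwoS 1 F g w ∨ TwoS (-1) F g w := by
  classical
  by_contra hcon
  rw [not_or] at hcon
  obtain ⟨hcon1, hcon0⟩ := hcon
  obtain ⟨Ra, Rb, hab, hRa, hRb⟩ := h2
  have hne : F.Nonempty := ⟨Ra, (hF _).2 hRa⟩
  obtain ⟨S1, hS1, hmax⟩ := F.exists_max_image (fun S => nS w S) hne
  obtain ⟨S0, hS0, hmin⟩ := F.exists_min_image (fun S => nS w S) hne
  have hv' : (2 * B + v : ℤ) ≤ 4 * g := by exact_mod_cast hv
  have hB0 : (0 : ℤ) ≤ B := Int.natCast_nonneg B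
  have hv0 : (0 : ℤ) ≤ v := Int.natCast_nonneg v
  have hg0 : (0 : ℤ) ≤ g := Int.natCast_nonneg g
  have iso1 : ∀ S, Z S ≠ 0 → S ≠ S1 → nS w S + g < nS w S1 := by
    intro S hS hne
    by_contra hle
    push Not at hle
    apply hcon1
    refine ⟨S, S1, hne, ⟨(hF _).2 hS, fun S' hS' => ?_⟩, ⟨hS1, fun S' hS' => ?_⟩⟩
    · have := hmax S' hS'
      unfold nS at this hle
      simp only [wt, Pi.zero_apply]
      linarith
    · have := hmax S' hS'
      unfold nS at this
      simp only [wt, Pi.zero_apply]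
      linarith
  have iso0 : ∀ S, Z S ≠ 0 → S ≠ S0 → nS w S0 + g < nS w S := by
    intro S hS hne
    by_contra hle
    push Not at hle
    apply hcon0
    refine ⟨S, S0, hne, ⟨(hF _).2 hS, fun S' hS' => ?_⟩, ⟨hS0, fun S' hS' => ?_⟩⟩
    · have := hmin S' hS'
      unfold nS at this hle
      simp only [wt, Pi.zero_apply]
      linarith
    · have := hmin S' hS'
      unfold nS at this
      simp only [wt, Pi.zero_apply]
      linarith
  set t : Finset (Fin k) → ℤ[T;T⁻¹] := fun S =>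
    ((-1 : ℤ[T;T⁻¹]) ^ (nS w S).natAbs * T (-4 * nS w S)) * Z S with ht
  have hsupp : ∀ S j, (t S).coeff j ≠ 0 → -4 * nS w S - B ≤ j ∧ j ≤ -4 * nS w S + B := by
    intro S j hj
    have h1 := ((T4b.SIn_sgn (nS w S).natAbs).mul (T4b.SIn.T (-4 * nS w S))).mul (hZ S) j hj
    constructor <;> linarith [h1.1, h1.2]
  have hz : ∀ S, Z S = 0 → t S = 0 := by
    intro S hS
    simp only [ht]
    rw [hS, mul_zero]
  have hnz : ∀ S, Z S ≠ 0 → ∃ j, (t S).coeff j ≠ 0 := by
    intro S hS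
    by_contra hc
    push Not at hc
    have h1 : t S = 0 := LaurentPolynomial.ext hc
    obtain ⟨g', -, hg'⟩ := (Pool.Agent.H891R2.ZO.unit_pow w S).inv
    apply hS
    calc Z S = (g' * ((-1) ^ (nS w S).natAbs * T (-4 * nS w S))) * Z S := by rw [hg', one_mul]
      _ = g' * t S := by simp only [ht]; ring
      _ = 0 := by rw [h1, mul_zero]
  have hiso : ∀ S, Z S ≠ 0 → (∀ S', Z S' ≠ 0 → S' ≠ S → 
      2 * (B : ℤ) < 4 * (nS w S' - nS w S) ∨ 2 * (B : ℤ) < 4 * (nS w S - nS w S')) → 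
      ∃ j, -4 * nS w S - B ≤ j ∧ j ≤ -4 * nS w S + B ∧ G.coeff j ≠ 0 := by
    intro S hS hfar
    obtain ⟨j, hj⟩ := hnz S hS
    have h1 := hsupp S j hj
    refine ⟨j, h1.1, h1.2, ?_⟩
    have h2 : G.coeff j = (t S).coeff j := by
      rw [← h, AddMonoidAlgebra.coeff_sum, Finsupp.finsetSum_apply]
      apply Finset.sum_eq_single
      · intro S' _ hne'
        by_contra h3
        have h4 := hsupp S' j h3
        have h5 : Z S' ≠ 0 := by
          intro h0
          apply h3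
          have : t S' = 0 := hz S' h0
          simp only [ht] at this
          rw [this]
          rfl
        rcases hfar S' h5 hne' with h6 | h6 <;> linarith [h1.1, h1.2, h4.1, h4.2]
      · intro h3
        exact absurd (Finset.mem_univ _) h3
    rw [h2]
    exact hj
  have hS1' := (hF _).1 hS1
  have hS0' := (hF _).1 hS0
  have hcase : S0 ≠ S1 := by
    intro heq
    by_cases h2 : Ra = S1
    · have h3 : Rb ≠ S1 := by rw [← h2]; exact hab.symm
      have a1 := iso1 Rb hRb h3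
      have a2 := iso0 Rb hRb (by rw [heq]; exact h3)
      rw [heq] at a2
      linarith
    · have a1 := iso1 Ra hRa h2
      have a2 := iso0 Ra hRa (by rw [heq]; exact h2)
      rw [heq] at a2
      linarith
  obtain ⟨j1, b1, b2, b3⟩ := hiso S1 hS1' (fun S' h' hne' => Or.inr (by
    have := iso1 S' h' hne'; linarith))
  obtain ⟨j0, c1, c2, c3⟩ := hiso S0 hS0' (fun S' h' hne' => Or.inl (by
    have := iso0 S' h' hne'; linarith))
  have d1 := hG j1 b3
  have d0 := hG j0 c3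
  have e1 := iso1 S0 hS0' hcase
  linarith [d1.1, d0.2]

/-- the support of `f`, if the support of `δ ^ k * f` is known -/
theorem SIn_div (f : ℤ[T;T⁻¹]) (m : ℕ) (lo hi : ℤ)
    (h : SIn ((-T 2 - T (-2)) ^ m * f) lo hi) : SIn f (lo + 2 * m) (hi - 2 * m) := by
  -- upper bounds
  have key : ∀ (f : ℤ[T;T⁻¹]) (hi : ℤ), (∀ j, ((-T 2 - T (-2)) ^ m * f).coeff j ≠ 0 → j ≤ hi) →
      ∀ j, f.coeff j ≠ 0 → j ≤ hi - 2 * m := by
    intro f hi h j hj
    have hf : f ≠ 0 := by
      rintro rfl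
      exact hj rfl
    obtain ⟨q, hq, hq2⟩ := exists_top hf
    have h1 := (Top.delta.pow m).mul hq2
    have h2 : ((-T 2 - T (-2)) ^ m * f : ℤ[T;T⁻¹]).coeff (m * 2 + q) ≠ 0 := by
      rw [h1.1]
      exact mul_ne_zero (pow_ne_zero _ (by norm_num)) hq
    have h3 := h _ h2
    have h4 : j ≤ q := by
      by_contra hlt
      exact hj (hq2.2 j (not_le.1 hlt))
    linarith
  intro j hj
  refine ⟨?_, key f hi (fun j hj => (h j hj).2) j hj⟩
  have hinv : ∀ (g : ℤ[T;T⁻¹]) (j : ℤ), (LaurentPolynomial.invert g).coeff j = g.coeff (-j) := 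
    fun g j => LaurentPolynomial.invert_apply _ _
  have h5 := key (LaurentPolynomial.invert f) (-lo) (by
    intro j hj
    have e : ((-T 2 - T (-2)) ^ m * LaurentPolynomial.invert f : ℤ[T;T⁻¹]) = 
        LaurentPolynomial.invert ((-T 2 - T (-2)) ^ m * f) := by
      simp only [map_mul, map_pow, map_sub, map_neg, LaurentPolynomial.invert_T, neg_neg]
      congr 2
      ring
    rw [e, hinv] at hj
    have := (h _ hj).1
    linarith) (-j) (by rw [hinv, neg_neg]; exact hj)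
  linarith

/-- if only the cut state contributes, all brackets are equal up to units and the span is constant -/
theorem span_const (O : Sites k) (hk : 0 < k) 
    (hZ : ∀ R : Finset (Fin k), R ≠ univ → Pool.Agent.H891R2.SI.Zp O R = 0) (s : ℕ) (w w' : Fin k → ℤ) (lo : ℤ)
    (h : SIn (O.fill w).std.bracket lo (lo + 4 * s)) :
    ∃ lo', SIn (O.fill w').std.bracket lo' (lo' + 4 * s) := by
  -- the support of the bracket of the cut diagram
  have e1 := Pool.Agent.H891R2.ZO.expand O hk hZ w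
  have e2 := Pool.Agent.H891R2.ZO.expand O hk hZ w'
  obtain ⟨u, hu, hu1⟩ := (Pool.Agent.H891R2.ZO.unit_pow w univ).inv
  have h1 : SIn ((-T 2 - T (-2)) ^ k * (T (- ∑ e, w e) * (O.fill w).std.bracket)) 
      (-(k * 2) + (- ∑ e, w e + lo)) (k * 2 + (- ∑ e, w e + (lo + 4 * s))) :=
    (T4b.SIn_d.pow k).mul ((SIn.T _).mul h)
  obtain ⟨q, hq⟩ := hu.SIn
  have h2 : O.cut.std.bracket = u * ((-T 2 - T (-2)) ^ k * (T (- ∑ e, w e) * (O.fill w).std.bracket)) := by
    rw [e1, ← mul_assoc, hu1, one_mul]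
  have h3 := hq.mul h1
  rw [← h2] at h3
  -- back to `w'`
  obtain ⟨q', hq'⟩ := (Pool.Agent.H891R2.ZO.unit_pow w' univ).SIn
  have h4 := hq'.mul h3
  rw [← e2] at h4
  have h5 := SIn_div _ k _ _ h4
  obtain ⟨u2, hu2, hu3⟩ := (Pool.Agent.H891R2.ZO.IsPow.T (- ∑ e, w' e)).inv
  obtain ⟨q2, hq2⟩ := hu2.SIn
  have h6 := hq2.mul h5
  rw [← mul_assoc, hu3, one_mul] at h6
  refine ⟨q2 + (q' + (q + (-(k * 2) + (- ∑ e, w e + lo))) + 2 * k), h6.mono le_rfl ?_⟩
  linarith

theorem span_bracket' {P : Type} [Fintype P] [DecidableEq P] [Nonempty P] (s : ℕ)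
    (U : UDiagram P) (D : Diagram P) (hD : Orients D U) (h : FSpanLE s D) :
    ∃ lo : ℤ, SIn U.std.bracket lo (lo + 4 * s) :=
  Pool.Agent.H832R3.TW.span_bracket s U D hD h

theorem fspan_of_bracket {P : Type} [Fintype P] [DecidableEq P] [Nonempty P] (s : ℕ)
    (U : UDiagram P) (D : Diagram P) (hD : Orients D U) (lo : ℤ)
    (h : SIn U.std.bracket lo (lo + 4 * s)) : FSpanLE s D := by
  have hbr : D.bracket = U.std.bracket := T6.bracket_orients D _ hD
  refine ⟨-3 * D.writhe + lo, ?_⟩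
  have h1 : SIn D.fPoly (-3 * D.writhe + lo) (-3 * D.writhe + (lo + 4 * s)) := by
    unfold Diagram.fPoly
    rw [hbr]
    have hs : SIn ((if Even D.writhe then 1 else -1 : ℤ[T;T⁻¹])) 0 0 := by
      split_ifs
      · exact SIn.one
      · exact SIn.one.neg
    have := (hs.mul (SIn.T (-3 * D.writhe))).mul h
    exact this.mono (by linarith) (by linarith)
  intro j hj
  have := h1 j hj
  constructor <;> linarith [this.1, this.2]

open Classical in
/-- the zero-one law -/
theorem zero_one (O : Sites k) (hk : 0 < k) (hO : O.Connected) (s : ℕ) :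
    (∀ (w : Fin k → ℤ) (D : Diagram (O.P ⊕ Ribbon.Pt w)), Orients D (O.fill w) → FSpanLE s D) ∨
    ∀ (A : Fin k → Finset ℤ) (M : ℕ), (∀ e, M ≤ (A e).card) →
      M * #{w ∈ Fintype.piFinset A | ∃ D : Diagram (O.P ⊕ Ribbon.Pt w),
          Orients D (O.fill w) ∧ FSpanLE s D} ≤
        2 * k * (3 * O.crossings.length + 6 * k + 2 * s + 2) * ∏ e, (A e).card := by
  have hne : ∀ w : Fin k → ℤ, Nonempty (O.P ⊕ Ribbon.Pt w) := fun w => 
    ⟨.inl (O.corner ⟨0, hk⟩ false false)⟩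
  by_cases hZ : ∀ R : Finset (Fin k), R ≠ univ → Pool.Agent.H891R2.SI.Zp O R = 0
  · by_cases hall : ∃ (w : Fin k → ℤ) (D : Diagram (O.P ⊕ Ribbon.Pt w)), 
        Orients D (O.fill w) ∧ FSpanLE s D
    · left
      obtain ⟨w, D, hD, hs⟩ := hall
      intro w' D' hD'
      obtain ⟨lo, h1⟩ := (have := hne w; span_bracket' s _ D hD hs)
      obtain ⟨lo', h2⟩ := span_const O hk hZ s w w' lo h1
      exact (have := hne w'; fspan_of_bracket s _ D' hD' lo' h2)
    · right
      intro A M _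
      have : ({w ∈ Fintype.piFinset A | ∃ D : Diagram (O.P ⊕ Ribbon.Pt w),
          Orients D (O.fill w) ∧ FSpanLE s D}) = ∅ := by
        apply Finset.filter_false_of_mem
        intro w _ hw
        exact hall ⟨w, hw⟩
      rw [this]
      simp
  · right
    push Not at hZ
    obtain ⟨R, hR, hR0⟩ := hZ
    have huniv : Pool.Agent.H891R2.SI.Zp O univ ≠ 0 := by
      rw [Pool.Agent.H891R2.ZO.Zp_univ]
      exact Pool.Agent.H891R2.ZO.bracket_ne _
    intro A M hM
    obtain ⟨g, hg⟩ : ∃ g, g = (3 * O.crossings.length + 6 * k + 2 * s + 1) / 2 := ⟨_, rfl⟩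
    set F : Finset (Finset (Fin k)) := Finset.univ.filter (fun R => Pool.Agent.H891R2.SI.Zp O R ≠ 0) with hF
    have h1 := count_twoS 1 (Or.inl rfl) F g A M hM
    have h2 := count_twoS (-1) (Or.inr rfl) F g A M hM
    have hsub : ({w ∈ Fintype.piFinset A | ∃ D : Diagram (O.P ⊕ Ribbon.Pt w),
          Orients D (O.fill w) ∧ FSpanLE s D}) ⊆ 
        ({n ∈ Fintype.piFinset A | TwoS 1 F g n}) ∪ ({n ∈ Fintype.piFinset A | TwoS (-1) F g n}) := by
      intro w hw
      rw [Finset.mem_filter] at hw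
      obtain ⟨hwA, D, hD, hs⟩ := hw
      rw [Finset.mem_union, Finset.mem_filter, Finset.mem_filter]
      obtain ⟨lo, hb⟩ := (have := hne w; span_bracket' s _ D hD hs)
      have hG := ((T4b.SIn_d.pow k).mul (SIn.T (- ∑ e, w e))).mul hb
      have key := two_near_gen (Pool.Agent.H891R2.SI.Zp O) (3 * O.crossings.length + 4 * k)
        (fun R => (Pool.Agent.H891R2.SI.S4 O hO R).mono (by push_cast; linarith) (by push_cast; linarith)) w _ 
        (-(k * 2) + (- ∑ e, w e) + lo) (4 * k + 4 * s) g (by omega) 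
        (hG.mono le_rfl (by push_cast; linarith)) (Pool.Agent.H891R2.SI.S3 O hk w).symm F (fun R => by simp [hF]) 
        ⟨R, univ, hR, hR0, huniv⟩
      exact key.imp (fun h => ⟨hwA, h⟩) (fun h => ⟨hwA, h⟩)
    have h3 := (Finset.card_le_card hsub).trans (Finset.card_union_le _ _)
    have h4 := Nat.mul_le_mul_left M h3
    rw [Nat.mul_add] at h4
    refine (h4.trans (Nat.add_le_add h1 h2)).trans ?_
    have e : 2 * g + 1 ≤ 3 * O.crossings.length + 6 * k + 2 * s + 2 := by omega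
    calc k * (2 * g + 1) * ∏ e, (A e).card + k * (2 * g + 1) * ∏ e, (A e).card = 
        2 * k * (2 * g + 1) * ∏ e, (A e).card := by ring
      _ ≤ _ := Nat.mul_le_mul_right _ (Nat.mul_le_mul_left _ e)

end Pool.Agent.H953R3.JT
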