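import Pool.Agent.H832R3.TW.E
import Pool.Agent.H953R3.JT.Iso

set_option autoImplicit false

/-! The isolation lemma for twist families of links in thickened surfaces. -/

namespace Pool.Agent.H953R3.JT

open Finset LaurentPolynomial Pool.Agent.H891R2.Jones Pool.Agent.H891R2.MT Pool.Agent.H832R3.TW

variable {k : ℕ}

/-- two different nearly optimal sets -/
def Two (σ : ℤ) (F : Finset (Finset (Fin k))) (g : ℕ) (n : Fin k → ℤ) : Prop :=
  ∃ S S', S ≠ S' ∧ Near σ 0 F g n S ∧ Near σ 0 F g n S'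

open Classical in
/-- the states with nonvanishing polynomial -/
noncomputable def FamS (arcs : List (Corner k × Corner k)) : Finset (Finset (Fin k)) :=
  Finset.univ.filter (fun S => cp arcs S ≠ 0)

/-- two sets are close to each other at one of the two ends -/
theorem two_near (arcs : List (Corner k × Corner k)) (hτ : ¬ Nugatory arcs) (n : Fin k → ℤ)
    (F : ℤ[T;T⁻¹]) (lo : ℤ) (w g : ℕ) (hw : 12 * k + w ≤ 4 * g) (hF : T4b.SIn F lo (lo + w))
    (h : ∑ S : Finset (Fin k), ((-1 : ℤ[T;T⁻¹]) ^ (nS n S).natAbs * T (4 * nS n S)) *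
        Polynomial.aeval (-T 2 - T (-2) : ℤ[T;T⁻¹]) (cp arcs S) = F) :
    Two 1 (FamS arcs) g n ∨ Two (-1) (FamS arcs) g n := by
  classical
  by_contra hcon
  rw [not_or] at hcon
  obtain ⟨hcon1, hcon0⟩ := hcon
  have hmem : ∀ S, S ∈ FamS arcs ↔ cp arcs S ≠ 0 := fun S => by simp [FamS]
  have hne : (FamS arcs).Nonempty := ⟨∅, (hmem _).2 (cp_empty arcs)⟩
  obtain ⟨S1, hS1, hmax⟩ := (FamS arcs).exists_max_image (fun S => nS n S) hne
  obtain ⟨S0, hS0, hmin⟩ := (FamS arcs).exists_min_image (fun S => nS n S) hne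
  have hw' : (12 * k + w : ℤ) ≤ 4 * g := by exact_mod_cast hw
  have hk0 : (0 : ℤ) ≤ k := Int.natCast_nonneg k
  have hw0 : (0 : ℤ) ≤ w := Int.natCast_nonneg w
  have hg0 : (0 : ℤ) ≤ g := Int.natCast_nonneg g
  have iso1 : ∀ S, cp arcs S ≠ 0 → S ≠ S1 → nS n S + g < nS n S1 := by
    intro S hS hne
    by_contra hle
    push Not at hle
    apply hcon1
    refine ⟨S, S1, hne, ⟨(hmem _).2 hS, fun S' hS' => ?_⟩, ⟨hS1, fun S' hS' => ?_⟩⟩
    · have := hmax S' hS'
      unfold nS at this hle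
      simp only [wt, Pi.zero_apply]
      linarith
    · have := hmax S' hS'
      unfold nS at this
      simp only [wt, Pi.zero_apply]
      linarith
  have iso0 : ∀ S, cp arcs S ≠ 0 → S ≠ S0 → nS n S0 + g < nS n S := by
    intro S hS hne
    by_contra hle
    push Not at hle
    apply hcon0
    refine ⟨S, S0, hne, ⟨(hmem _).2 hS, fun S' hS' => ?_⟩, ⟨hS0, fun S' hS' => ?_⟩⟩
    · have := hmin S' hS'
      unfold nS at this hle
      simp only [wt, Pi.zero_apply]
      linarith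
    · have := hmin S' hS'
      unfold nS at this
      simp only [wt, Pi.zero_apply]
      linarith
  set t : Finset (Fin k) → ℤ[T;T⁻¹] := fun S =>
    ((-1 : ℤ[T;T⁻¹]) ^ (nS n S).natAbs * T (4 * nS n S)) *
        Polynomial.aeval (-T 2 - T (-2) : ℤ[T;T⁻¹]) (cp arcs S) with ht
  have hsupp : ∀ S j, (t S).coeff j ≠ 0 → 4 * nS n S - 6 * k ≤ j ∧ j ≤ 4 * nS n S + 6 * k := by
    intro S j hj
    have h1 := ((T4b.SIn_sgn (nS n S).natAbs).mul (T4b.SIn.T (4 * nS n S))).mul
      (Pool.Agent.H832R3.TW.SIn_aeval (cp arcs S) (cp_natDegree arcs S)) j hj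
    push_cast at h1
    constructor <;> linarith [h1.1, h1.2]
  have hz : ∀ S, cp arcs S = 0 → t S = 0 := by
    intro S hS
    simp only [ht]
    rw [hS, map_zero, mul_zero]
  have hnz : ∀ S, cp arcs S ≠ 0 → ∃ j, (t S).coeff j ≠ 0 := by
    intro S hS
    by_contra hc
    push Not at hc
    have h1 : t S = 0 := LaurentPolynomial.ext hc
    have h2 : T4a.W (nS n S) * Polynomial.aeval (-T 2 - T (-2) : ℤ[T;T⁻¹]) (cp arcs S) = 0 := h1
    rcases mul_eq_zero.1 h2 with h3 | h3
    · have h4 : T4a.W (nS n S) * T4a.W (-nS n S) = 1 := by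
        rw [← T4a.W_add, add_neg_cancel, T4a.W_zero]
      rw [h3, zero_mul] at h4
      exact zero_ne_one h4
    · exact hS (aeval_inj _ h3)
  -- an isolated set gives a coefficient of `F`
  have hiso : ∀ S, cp arcs S ≠ 0 → (∀ S', cp arcs S' ≠ 0 → S' ≠ S → 
      12 * k < 4 * (nS n S' - nS n S) ∨ 12 * k < 4 * (nS n S - nS n S')) → 
      ∃ j, 4 * nS n S - 6 * k ≤ j ∧ j ≤ 4 * nS n S + 6 * k ∧ F.coeff j ≠ 0 := by
    intro S hS hfar
    obtain ⟨j, hj⟩ := hnz S hS
    have h1 := hsupp S j hj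
    refine ⟨j, h1.1, h1.2, ?_⟩
    have h2 : F.coeff j = (t S).coeff j := by
      rw [← h, AddMonoidAlgebra.coeff_sum, Finsupp.finsetSum_apply]
      apply Finset.sum_eq_single
      · intro S' _ hne'
        by_contra h3
        have h4 := hsupp S' j h3
        have h5 : cp arcs S' ≠ 0 := by
          intro h0
          apply h3
          have : t S' = 0 := hz S' h0
          simp only [ht] at this
          rw [this]
          rfl
        rcases hfar S' h5 hne' with h6 | h6 <;> linarith [h1.1, h1.2, h4.1, h4.2]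
      · intro h3
        exact absurd (Finset.mem_univ _) h3
    rw [h2]
    exact hj
  have hS1' := (hmem _).1 hS1
  have hS0' := (hmem _).1 hS0
  obtain ⟨S2, hS2, hcS2⟩ := exists_cp_ne arcs hτ
  have hcase : S0 ≠ S1 := by
    intro heq
    by_cases h2 : S2 = S1
    · have h3 : (∅ : Finset (Fin k)) ≠ S1 := by rw [← h2]; exact hS2.symm
      have a1 := iso1 ∅ (cp_empty arcs) h3
      have a2 := iso0 ∅ (cp_empty arcs) (by rw [heq]; exact h3)
      rw [heq] at a2
      linarith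
    · have a1 := iso1 S2 hcS2 h2
      have a2 := iso0 S2 hcS2 (by rw [heq]; exact h2)
      rw [heq] at a2
      linarith
  obtain ⟨j1, b1, b2, b3⟩ := hiso S1 hS1' (fun S' h' hne' => Or.inr (by
    have := iso1 S' h' hne'; linarith))
  obtain ⟨j0, c1, c2, c3⟩ := hiso S0 hS0' (fun S' h' hne' => Or.inl (by
    have := iso0 S' h' hne'; linarith))
  have d1 := hF j1 b3
  have d0 := hF j0 c3
  have e1 := iso1 S0 hS0' hcase
  linarith [d1.2, d0.1]

open Classical in
theorem count_two' (σ : ℤ) (hσ : σ = 1 ∨ σ = -1) (F : Finset (Finset (Fin k))) (g : ℕ)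
    (A : Fin k → Finset ℤ) (M : ℕ) (hM : ∀ e, M ≤ (A e).card) :
    M * #{n ∈ Fintype.piFinset A | Two σ F g n} ≤ k * (2 * g + 1) * ∏ e, (A e).card := by
  have h := isolation σ hσ 0 F g A M hM
  refine le_trans (Nat.mul_le_mul_left _ (Finset.card_le_card ?_)) h
  intro n hn
  rw [Finset.mem_filter] at hn ⊢
  exact hn

open Classical in
/-- links in thickened surfaces with small Jones span -/
theorem count_surface (arcs : List (Corner k × Corner k)) (hτ : ¬ Nugatory arcs) (s : ℕ)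
    (A : Fin k → Finset ℤ) (M : ℕ) (hM : ∀ e, M ≤ (A e).card) :
    M * #{n ∈ Fintype.piFinset A | ∃ D : Diagram (Ribbon.Pt n), 
        Orients D (twisted arcs n) ∧ FSpanLE s D} ≤
      2 * k * (8 * k + 2 * s + 3) * ∏ e, (A e).card := by
  have hk := pos_of_not_nugatory arcs hτ
  obtain ⟨g, hg⟩ : ∃ g, g = 4 * k + s + 1 := ⟨_, rfl⟩
  have h1 := count_two' 1 (Or.inl rfl) (FamS arcs) g A M hM
  have h2 := count_two' (-1) (Or.inr rfl) (FamS arcs) g A M hM
  have hsub : ({n ∈ Fintype.piFinset A | ∃ D : Diagram (Ribbon.Pt n), 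
        Orients D (twisted arcs n) ∧ FSpanLE s D}) ⊆ 
      ({n ∈ Fintype.piFinset A | Two 1 (FamS arcs) g n}) ∪ 
      ({n ∈ Fintype.piFinset A | Two (-1) (FamS arcs) g n}) := by
    intro n hn
    rw [Finset.mem_filter] at hn
    obtain ⟨hnA, D, hD, hs⟩ := hn
    rw [Finset.mem_union, Finset.mem_filter, Finset.mem_filter]
    have hne : Nonempty (Ribbon.Pt n) := ⟨⟨⟨0, hk⟩, 0, true⟩⟩
    obtain ⟨lo, hb⟩ := span_bracket s _ D hD hs
    have hid := Pool.Agent.H832R3.TW.identity arcs hk n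
    have hd : T4b.SIn ((-T 2 - T (-2) : ℤ[T;T⁻¹]) ^ (1 + k)) (-2 * (1 + k : ℕ)) (2 * (1 + k : ℕ)) := by
      refine (T4b.SIn_d.pow _).mono ?_ ?_ <;> linarith
    have hb' : T4b.SIn (twisted arcs n).std.bracket lo (lo + 4 * s) := hb
    have hgg := (((T4b.SIn_sgn (nS n univ).natAbs).mul (T4b.SIn.T (3 * nS n univ))).mul hd).mul hb'
    have key := two_near arcs hτ n _ (0 + 3 * nS n univ + -2 * (1 + k : ℕ) + lo)
      (4 * (1 + k) + 4 * s) g (by omega) (hgg.mono le_rfl (by push_cast; linarith)) hid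
    exact key.imp (fun h => ⟨hnA, h⟩) (fun h => ⟨hnA, h⟩)
  have h3 := (Finset.card_le_card hsub).trans (Finset.card_union_le _ _)
  have h4 := Nat.mul_le_mul_left M h3
  rw [Nat.mul_add] at h4
  refine (h4.trans (Nat.add_le_add h1 h2)).trans (le_of_eq ?_)
  have e : 2 * g + 1 = 8 * k + 2 * s + 3 := by rw [hg]; ring
  rw [e]
  generalize ∏ e, (A e).card = Q
  ring

end Pool.Agent.H953R3.JT
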